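import Pool.Agent.Work.MP_db9399_da_helper45.SIZ

/-!
# Blocks LBB and LAB3: random shifts
-/

set_option autoImplicit false

namespace Pool.Agent.Work.MP_db9399_da.helper45

open Finset Classical
open Pool.Agent.Work.MP_db9399_all (nb pr)

universe u

lemma pr_le_one {Ω : Type u} [Fintype Ω] (E : Ω → Prop) : pr E ≤ 1 := by
  unfold pr
  apply div_le_one_of_le₀ _ (Nat.cast_nonneg _)
  exact_mod_cast card_filter_le _ _

lemma to0 {V : Type u} [Fintype V] {J : ℕ} {nd : V → Fin J} {r : Fin J → ℕ} {T : SimpleGraph V}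
    {w : V → ℝ} {W : ℝ} {blk : V → V} {pos : V → ℕ} {Fx : V → Prop}
    (h : BM nd r T w W blk pos Fx) : BM0 nd r blk pos Fx :=
  ⟨h.nb, h.pl, h.inj, h.full, h.fxb, h.fx1, h.fxp, h.fxs⟩

lemma mul_exp_le (y : ℝ) : y * Real.exp (-y) ≤ 1 := by
  have h1 := Real.add_one_le_exp y
  have h2 := Real.exp_pos (-y)
  have h3 : Real.exp y * Real.exp (-y) = 1 := by rw [← Real.exp_add, add_neg_cancel, Real.exp_zero]
  nlinarith

theorem stmt_LBB (hLBH : Stmt_LBH.{u}) (hLBV : Stmt_LBV.{u}) : Stmt_LBB.{u} := by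
  intro J
  refine ⟨10 ^ 15 * ((J : ℝ) + 1) ^ 2, by positivity, fun C δ ζ k hC hδ hζ => ?_⟩
  obtain ⟨K, hK⟩ : ∃ K : ℝ, K = 10 ^ 15 * ((J : ℝ) + 1) ^ 2 := ⟨_, rfl⟩
  rw [← hK]
  have hK0 : 0 < K := by rw [hK]; positivity
  have hC0 : 0 < C := by linarith
  -- choice of `d0`
  obtain ⟨d0, hd0⟩ : ∃ d0 : ℕ, ∀ d : ℕ, d0 ≤ d → 1 ≤ (d : ℝ) ∧ 12 ≤ δ * d ∧ 1 ≤ ζ * d ∧
      10 ^ 16 ≤ K * ζ * d ∧
      (d : ℝ) ^ k * Real.exp (-(δ ^ 2 / (16 * C) * d)) < 1 / (48 * ((J : ℝ) + 1)) := by
    have h1 : ∀ a b : ℝ, 0 < a → ∀ᶠ d : ℕ in Filter.atTop, b ≤ a * d := by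
      intro a b ha
      have := Filter.Tendsto.const_mul_atTop ha (tendsto_natCast_atTop_atTop (R := ℝ))
      exact this.eventually_ge_atTop b
    have h2 : Filter.Tendsto (fun d : ℕ => (d : ℝ) ^ k * (Real.exp (-(δ ^ 2 / (16 * C)))) ^ d)
        Filter.atTop (nhds 0) := by
      apply tendsto_pow_const_mul_const_pow_of_abs_lt_one
      rw [abs_of_pos (Real.exp_pos _), Real.exp_lt_one_iff]
      have : 0 < δ ^ 2 / (16 * C) := by positivity
      linarith
    have h3 := h2.eventually (gt_mem_nhds (show (0 : ℝ) < 1 / (48 * ((J : ℝ) + 1)) by positivity))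
    obtain ⟨d0, h4⟩ := Filter.eventually_atTop.1 ((h1 1 1 one_pos).and ((h1 δ 12 hδ).and
      ((h1 ζ 1 hζ).and ((h1 (K * ζ) (10 ^ 16) (by positivity)).and h3))))
    refine ⟨d0, fun d hd => ?_⟩
    obtain ⟨a1, a2, a3, a4, a5⟩ := h4 d hd
    refine ⟨by simpa using a1, a2, a3, a4, ?_⟩
    rw [← Real.exp_nat_mul] at a5
    have : (d : ℝ) * -(δ ^ 2 / (16 * C)) = -(δ ^ 2 / (16 * C) * d) := by ring
    rw [this] at a5
    exact a5
  refine ⟨d0, ?_⟩
  intro V _ d nd r T w W blk pos Fx I V0 S hd hV hr hB hI hT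
  obtain ⟨hd1, hd2, hd3, hd4, hd5⟩ := hd0 d hd
  have hd0' : (0 : ℝ) < d := by linarith
  set lab : (V → Fin 60) → V → ℕ := fun ω => lb nd r blk pos Fx ω with hlab
  set dv : Finset V → Fin J → ℕ → (V → Fin 60) → ℝ := fun A j i ω =>
    |((A ∩ clS nd (lab ω) j i).card : ℝ) - (A ∩ nodeS nd j).card / r j| with hdv
  -- Chernoff
  have hch : ∀ (A : Finset V) (j : Fin J) (i : ℕ) (x : ℝ), i < r j → 0 ≤ x →
      pr (fun ω => x + 6 < dv A j i ω) ≤
        2 * Real.exp (-(x ^ 2 / (4 * (A ∩ nodeS nd j).card))) := by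
    intro A j i x hi hx
    rcases (A ∩ nodeS nd j).eq_empty_or_nonempty with h | h
    · rw [pr_false]
      · positivity
      · intro ω hω
        have h1 : A ∩ clS nd (lab ω) j i = ∅ := by
          rw [← subset_empty, ← h]
          apply inter_subset_inter_left
          intro v hv
          rw [mem_nodeS]
          exact ((mem_clS _ _ _ _ _).1 hv).1
        simp only [hdv, h, h1, card_empty, Nat.cast_zero, zero_div, sub_zero, abs_zero] at hω
        linarith
    · exact hLBH nd r T w W blk pos Fx A j i x hr hB hi hx h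
  set E1 : (V → Fin 60) → Prop := fun ω => ∃ x ∈ I ×ˢ ((univ : Finset (Fin J)) ×ˢ range 6),
    x.2.2 < r x.2.1 ∧ δ * d < dv x.1 x.2.1 x.2.2 ω with hE1
  set E2 : (V → Fin 60) → Prop := fun ω =>
    ∃ x ∈ ((univ : Finset (Fin J)) ×ˢ (univ : Finset (Fin J))) ×ˢ (range 6 ×ˢ range 6),
    K * ζ * d ≤ (eb T (nodeS nd x.1.1) (nodeS nd x.1.2) : ℝ) ∧ x.2.1 < r x.1.1 ∧ x.2.2 < r x.1.2 ∧
    (eb T (nodeS nd x.1.1) (nodeS nd x.1.2) : ℝ) / 1000 <
      |(eb T (clS nd (lab ω) x.1.1 x.2.1) (clS nd (lab ω) x.1.2 x.2.2) : ℝ) -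
        (eb T (nodeS nd x.1.1) (nodeS nd x.1.2) : ℝ) / (r x.1.1 * r x.1.2)| with hE2
  set X : (V → Fin 60) → ℝ := fun ω => ∑ z ∈ V0, ∑ j, (if ∃ i < r j,
      ((S z ∩ nodeS nd j).card : ℝ) / 1000 < dv (S z) j i ω
      then ((S z ∩ nodeS nd j).card : ℝ) else 0) with hX
  set E3 : (V → Fin 60) → Prop := fun ω => K * V0.card < X ω with hE3
  -- the probability of `E1`
  have h1 : pr E1 < 1 / 4 := by
    have hx : ∀ x ∈ I ×ˢ ((univ : Finset (Fin J)) ×ˢ range 6),
        pr (fun ω => x.2.2 < r x.2.1 ∧ δ * d < dv x.1 x.2.1 x.2.2 ω) ≤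
          2 * Real.exp (-(δ ^ 2 / (16 * C) * d)) := by
      intro x _
      by_cases hi : x.2.2 < r x.2.1
      · rcases (x.1 ∩ nodeS nd x.2.1).eq_empty_or_nonempty with he | he
        · rw [pr_false]
          · positivity
          · rintro ω ⟨-, hω⟩
            have h1 : x.1 ∩ clS nd (lab ω) x.2.1 x.2.2 = ∅ := by
              rw [← subset_empty, ← he]
              apply inter_subset_inter_left
              intro v hv
              rw [mem_nodeS]
              exact ((mem_clS _ _ _ _ _).1 hv).1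
            simp only [hdv, he, h1, card_empty, Nat.cast_zero, zero_div, sub_zero,
              abs_zero] at hω
            linarith
        · refine (pr_mono (F := fun ω => δ * d / 2 + 6 < dv x.1 x.2.1 x.2.2 ω) ?_).trans
            ((hch x.1 x.2.1 x.2.2 (δ * d / 2) hi (by positivity)).trans ?_)
          · rintro ω ⟨-, hω⟩
            linarith
          · apply mul_le_mul_of_nonneg_left _ (by norm_num)
            apply Real.exp_le_exp.2
            apply neg_le_neg
            have hN : ((x.1 ∩ nodeS nd x.2.1).card : ℝ) ≤ C * d := by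
              refine le_trans ?_ hV
              exact_mod_cast card_le_univ _
            have hN0 : (0 : ℝ) < (x.1 ∩ nodeS nd x.2.1).card := by exact_mod_cast he.card_pos
            rw [le_div_iff₀ (by positivity)]
            calc δ ^ 2 / (16 * C) * d * (4 * ((x.1 ∩ nodeS nd x.2.1).card : ℝ))
                ≤ δ ^ 2 / (16 * C) * d * (4 * (C * d)) := by gcongr
              _ = (δ * d / 2) ^ 2 := by field_simp; ring
      · rw [pr_false]
        · positivity
        · rintro ω ⟨hω, -⟩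
          exact hi hω
    refine (pr_union _ _).trans_lt ((sum_le_sum hx).trans_lt ?_)
    rw [sum_const, nsmul_eq_mul, card_product, card_product, card_range, card_univ,
      Fintype.card_fin]
    push_cast
    have hI' : (I.card : ℝ) ≤ (d : ℝ) ^ k := by exact_mod_cast hI
    have hJ : (0 : ℝ) ≤ J := Nat.cast_nonneg _
    calc (I.card : ℝ) * ((J : ℝ) * 6) * (2 * Real.exp (-(δ ^ 2 / (16 * C) * d)))
        ≤ (d : ℝ) ^ k * ((J : ℝ) * 6) * (2 * Real.exp (-(δ ^ 2 / (16 * C) * d))) := by gcongr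
      _ = (12 * (J : ℝ)) * ((d : ℝ) ^ k * Real.exp (-(δ ^ 2 / (16 * C) * d))) := by ring
      _ ≤ (12 * (J : ℝ)) * (1 / (48 * ((J : ℝ) + 1))) := by gcongr
      _ < 1 / 4 := by
        rw [mul_one_div, div_lt_div_iff₀ (by positivity) (by norm_num)]
        linarith
  -- the probability of `E2`
  have h2 : pr E2 < 1 / 4 := by
    have hx : ∀ x ∈ ((univ : Finset (Fin J)) ×ˢ (univ : Finset (Fin J))) ×ˢ
        (range 6 ×ˢ range 6), pr (fun ω =>
          K * ζ * d ≤ (eb T (nodeS nd x.1.1) (nodeS nd x.1.2) : ℝ) ∧ x.2.1 < r x.1.1 ∧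
          x.2.2 < r x.1.2 ∧ (eb T (nodeS nd x.1.1) (nodeS nd x.1.2) : ℝ) / 1000 <
          |(eb T (clS nd (lab ω) x.1.1 x.2.1) (clS nd (lab ω) x.1.2 x.2.2) : ℝ) -
            (eb T (nodeS nd x.1.1) (nodeS nd x.1.2) : ℝ) / (r x.1.1 * r x.1.2)|) ≤
          10 ^ 12 / K := by
      intro x _
      by_cases hc : K * ζ * d ≤ (eb T (nodeS nd x.1.1) (nodeS nd x.1.2) : ℝ) ∧
        x.2.1 < r x.1.1 ∧ x.2.2 < r x.1.2
      · obtain ⟨hc1, hc2, hc3⟩ := hc
        have hE0 : (0 : ℝ) < (eb T (nodeS nd x.1.1) (nodeS nd x.1.2) : ℝ) := by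
          refine lt_of_lt_of_le ?_ hc1
          positivity
        refine (pr_mono (F := fun ω => (eb T (nodeS nd x.1.1) (nodeS nd x.1.2) : ℝ) / 1000 <
          |(eb T (clS nd (lab ω) x.1.1 x.2.1) (clS nd (lab ω) x.1.2 x.2.2) : ℝ) -
            (eb T (nodeS nd x.1.1) (nodeS nd x.1.2) : ℝ) / (r x.1.1 * r x.1.2)|)
          (fun ω h => h.2.2.2)).trans ?_
        refine (hLBV nd r T w W blk pos Fx x.1.1 x.1.2 x.2.1 x.2.2 (ζ * d)
          (eb T (nodeS nd x.1.1) (nodeS nd x.1.2) : ℝ) hr hB hc2 hc3 hd3 hT rfl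
          (hd4.trans hc1) ?_).trans ?_
        · refine le_trans ?_ hc1
          have hJ : (0 : ℝ) ≤ J := Nat.cast_nonneg _
          have : (10 : ℝ) ^ 8 ≤ K := by
            rw [hK]
            nlinarith [sq_nonneg (J : ℝ)]
          rw [mul_assoc K]
          exact mul_le_mul_of_nonneg_right this (by positivity)
        · rw [div_le_div_iff₀ hE0 hK0]
          calc 10 ^ 12 * (ζ * d) * K = 10 ^ 12 * (K * ζ * d) := by ring
            _ ≤ 10 ^ 12 * (eb T (nodeS nd x.1.1) (nodeS nd x.1.2) : ℝ) := by gcongr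
      · rw [pr_false]
        · positivity
        · rintro ω ⟨a, b, c, -⟩
          exact hc ⟨a, b, c⟩
    refine (pr_union _ _).trans_lt ((sum_le_sum hx).trans_lt ?_)
    rw [sum_const, nsmul_eq_mul, card_product, card_product, card_product, card_range, card_univ,
      Fintype.card_fin]
    push_cast
    have hJ : (0 : ℝ) ≤ J := Nat.cast_nonneg _
    rw [mul_div_assoc', div_lt_div_iff₀ hK0 (by norm_num), hK]
    nlinarith [sq_nonneg (J : ℝ)]
  -- the probability of `E3`
  have hX0 : ∀ ω, 0 ≤ X ω := by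
    intro ω
    apply sum_nonneg
    intro z _
    apply sum_nonneg
    intro j _
    split_ifs <;> positivity
  have h3 : pr E3 < 1 / 4 := by
    rcases V0.eq_empty_or_nonempty with he | he
    · rw [pr_false]
      · norm_num
      · intro ω hω
        simp only [hE3, hX, he, sum_empty, card_empty, Nat.cast_zero, mul_zero] at hω
        exact lt_irrefl _ hω
    · have hv0 : (0 : ℝ) < V0.card := by exact_mod_cast he.card_pos
      have hJ : (0 : ℝ) ≤ J := Nat.cast_nonneg _
      -- one pair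
      have hzj : ∀ z j, ((S z ∩ nodeS nd j).card : ℝ) * pr (fun ω => ∃ i < r j,
          ((S z ∩ nodeS nd j).card : ℝ) / 1000 < dv (S z) j i ω) ≤ 6 * 32000000 := by
        intro z j
        obtain ⟨n, hn⟩ : ∃ n : ℝ, n = ((S z ∩ nodeS nd j).card : ℝ) := ⟨_, rfl⟩
        rw [← hn]
        have hn0 : 0 ≤ n := by rw [hn]; positivity
        have hi : ∀ i ∈ range 6, n * pr (fun ω => i < r j ∧ n / 1000 < dv (S z) j i ω) ≤
            32000000 := by
          intro i _
          by_cases hir : i < r j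
          · rcases lt_or_ge n 12000 with hlt | hge
            · have := pr_le_one (fun ω => i < r j ∧ n / 1000 < dv (S z) j i ω)
              nlinarith [pr_nonneg (fun ω => i < r j ∧ n / 1000 < dv (S z) j i ω)]
            · have h4 : pr (fun ω => i < r j ∧ n / 1000 < dv (S z) j i ω) ≤
                  2 * Real.exp (-(n / 16000000)) := by
                refine (pr_mono (F := fun ω => n / 2000 + 6 < dv (S z) j i ω) ?_).trans
                  ((hch (S z) j i (n / 2000) hir (by positivity)).trans ?_)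
                · rintro ω ⟨-, hω⟩
                  linarith
                · apply mul_le_mul_of_nonneg_left _ (by norm_num)
                  apply Real.exp_le_exp.2
                  apply neg_le_neg
                  rw [← hn]
                  apply le_of_eq
                  have : n ≠ 0 := by linarith
                  field_simp
                  ring
              have h5 := mul_exp_le (n / 16000000)
              calc n * pr (fun ω => i < r j ∧ n / 1000 < dv (S z) j i ω)
                  ≤ n * (2 * Real.exp (-(n / 16000000))) := by gcongr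
                _ = 32000000 * (n / 16000000 * Real.exp (-(n / 16000000))) := by ring
                _ ≤ 32000000 := by linarith
          · rw [pr_false]
            · norm_num
            · rintro ω ⟨h4, -⟩
              exact hir h4
        have h6 : pr (fun ω => ∃ i < r j, n / 1000 < dv (S z) j i ω) ≤
            ∑ i ∈ range 6, pr (fun ω => i < r j ∧ n / 1000 < dv (S z) j i ω) := by
          refine (pr_mono ?_).trans (pr_union (range 6) _)
          rintro ω ⟨i, hi, h⟩
          exact ⟨i, mem_range.2 (lt_of_lt_of_le hi (hr j).2), hi, h⟩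
        calc n * pr (fun ω => ∃ i < r j, n / 1000 < dv (S z) j i ω)
            ≤ n * ∑ i ∈ range 6, pr (fun ω => i < r j ∧ n / 1000 < dv (S z) j i ω) := by gcongr
          _ = ∑ i ∈ range 6, n * pr (fun ω => i < r j ∧ n / 1000 < dv (S z) j i ω) := mul_sum _ _ _
          _ ≤ ∑ i ∈ range 6, (32000000 : ℝ) := sum_le_sum hi
          _ = 6 * 32000000 := by rw [sum_const, card_range, nsmul_eq_mul]; norm_num
      have hav : (∑ ω, X ω) / Fintype.card (V → Fin 60) ≤ V0.card * (J * (6 * 32000000)) := by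
        have h4 : ∑ ω, X ω = ∑ z ∈ V0, ∑ j, ∑ ω, (if ∃ i < r j,
            ((S z ∩ nodeS nd j).card : ℝ) / 1000 < dv (S z) j i ω
            then ((S z ∩ nodeS nd j).card : ℝ) else 0) := by
          simp only [hX]
          rw [sum_comm]
          apply sum_congr rfl
          intro z _
          rw [sum_comm]
        rw [h4, sum_div]
        calc ∑ z ∈ V0, (∑ j, ∑ ω, (if ∃ i < r j,
              ((S z ∩ nodeS nd j).card : ℝ) / 1000 < dv (S z) j i ω
              then ((S z ∩ nodeS nd j).card : ℝ) else 0)) / Fintype.card (V → Fin 60)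
            ≤ ∑ z ∈ V0, (J * (6 * 32000000) : ℝ) := by
              apply sum_le_sum
              intro z _
              rw [sum_div]
              calc ∑ j, (∑ ω, (if ∃ i < r j,
                    ((S z ∩ nodeS nd j).card : ℝ) / 1000 < dv (S z) j i ω
                    then ((S z ∩ nodeS nd j).card : ℝ) else 0)) / Fintype.card (V → Fin 60)
                  ≤ ∑ j : Fin J, (6 * 32000000 : ℝ) := by
                    apply sum_le_sum
                    intro j _
                    rw [avg_ind]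
                    exact hzj z j
                _ = J * (6 * 32000000) := by
                    rw [sum_const, card_univ, Fintype.card_fin, nsmul_eq_mul]
          _ = V0.card * (J * (6 * 32000000)) := by rw [sum_const, nsmul_eq_mul]
      have h5 := pr_markov X hX0 (K * V0.card)
      have h6 : pr E3 * (K * V0.card) ≤ V0.card * (J * (6 * 32000000)) := h5.trans hav
      have h7 : pr E3 * K ≤ J * (6 * 32000000) := by
        have h8 : (pr E3 * K) * V0.card ≤ (J * (6 * 32000000)) * V0.card := by linarith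
        exact le_of_mul_le_mul_right h8 hv0
      have h9 : (J : ℝ) * (6 * 32000000) < 1 / 4 * K := by
        rw [hK]
        nlinarith [sq_nonneg (J : ℝ)]
      exact lt_of_mul_lt_mul_right (h7.trans_lt h9) hK0.le
  -- conclusion
  obtain ⟨ω, hω⟩ := exists_good (fun ω => E1 ω ∨ (E2 ω ∨ E3 ω)) (by
    have h4 := pr_or E1 (fun ω => E2 ω ∨ E3 ω)
    have h5 := pr_or E2 E3
    linarith)
  push Not at hω
  obtain ⟨g1, g2, g3⟩ := hω
  refine ⟨ω, fun v => lb_lt (to0 hB) hr ω v, fun j i hi => siz_of_BM (to0 hB) hr ω j i hi,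
    ?_, ?_, ?_⟩
  · intro A hA j i hi
    by_contra hcon
    push Not at hcon
    exact g1 ⟨(A, (j, i)), mem_product.2 ⟨hA, mem_product.2 ⟨mem_univ _,
      mem_range.2 (lt_of_lt_of_le hi (hr j).2)⟩⟩, hi, hcon⟩
  · intro j j' hL i hi i' hi'
    by_contra hcon
    push Not at hcon
    exact g2 ⟨((j, j'), (i, i')), mem_product.2 ⟨mem_product.2 ⟨mem_univ _, mem_univ _⟩,
      mem_product.2 ⟨mem_range.2 (lt_of_lt_of_le hi (hr j).2),
        mem_range.2 (lt_of_lt_of_le hi' (hr j').2)⟩⟩, hL, hi, hi', hcon⟩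
  · by_contra hcon
    push Not at hcon
    exact g3 hcon

theorem stmt_LAB3 (hLBA : Stmt_LBA.{u}) (hLBB : Stmt_LBB.{u}) : Stmt_LAB3.{u} := by
  intro J
  obtain ⟨K, hK0, hK⟩ := hLBB J
  refine ⟨K, hK0, fun C δ ζ k hC hδ hζ => ?_⟩
  obtain ⟨d0, hd0⟩ := hK C δ ζ k hC hδ hζ
  refine ⟨d0, ?_⟩
  intro V _ d nd r T w W I V0 S hd hV hr hW hw hI hT
  obtain ⟨blk, pos, Fx, hB⟩ := hLBA nd r T w W hr hW hw
  obtain ⟨ω, hω⟩ := hd0 d nd r T w W blk pos Fx I V0 S hd hV hr hB hI hT
  exact ⟨_, hω, fun j i hi i' hi' => hB.sw ω j i hi i' hi'⟩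

end Pool.Agent.Work.MP_db9399_da.helper45
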