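import Pool.Agent.Work.MP_db9399_da.Pre2

/-!
# Block PAR1: parity in one near-clique
-/

set_option autoImplicit false

namespace Pool.Agent.Work.MP_db9399_da.helper45

open Finset Classical
open Pool.Agent.Work.MP_db9399_all (nb)
open Pool.Agent.Work.MP_db9399_lt (us)
open Pool.Agent.Work.MP_db9399_da.helper82 (EC StepR alc Fs mem_Fs)

universe u

section ctx
variable {C g ρ K π κ ε ε2 σ τ ζ θ : ℝ} {M k k2 K5 L : ℕ} {V : Type u} [Fintype V]
    {G : SimpleGraph V} {d : ℕ} {P : Pcs V M} {A : Pal} {X : HD V} {Ss : Finset ℕ}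
    {t0 : V → V → ℕ} {c : V → ℕ} {Sp : Finset ℕ} {Bd : Finset ℕ} {s : ℕ} {t : V → V → ℕ}
    {U : Finset ℕ}

lemma mem_nbp (H : SimpleGraph V) (v w : V) : w ∈ nb H v ↔ H.Adj v w := by
  unfold nb
  rw [mem_filter]
  exact ⟨fun h => h.2, fun h => ⟨mem_univ _, h⟩⟩

lemma mem_pV (P : Pcs V M) (n : Fin M) (v : V) : v ∈ pV P n ↔ v ∉ P.V0 ∧ P.pc v = n := by
  unfold pV
  rw [mem_filter]
  exact ⟨fun h => h.2, fun h => ⟨mem_univ _, h⟩⟩

omit [Fintype V] in
lemma thin2_V0 {z w : V} (hz : z ∈ P.V0) (h : G.Adj z w) : (thin2 G X P).Adj z w :=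
  ⟨h, fun h2 => h2.1.2.1 hz⟩

lemma not_H (hp : HP k d G X) (hs : SupP P X) {z v : V} (hv : v ∉ P.V0) (hv' : v ∉ X.VH) :
    ¬ X.H.Adj z v := by
  intro h
  rcases hp.HS v z h.symm with h1 | h1
  · exact hv' h1
  · exact hv (hs v h1).1

lemma mem_Fc2 (v : V) (b : ℕ) :
    b ∈ Fc2 G X P t v ↔ ∃ w, (thin2 G X P).Adj v w ∧ t v w = b :=
  mem_Fs (thin2 G X P) t v b

/-- colours at an exceptional vertex are different -/
lemma cnt_col (hec : EC (thin2 G X P) t) {z : V} (hz : z ∈ P.V0) (B : Finset ℕ) :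
    ((nb G z).filter (fun x => t z x ∈ B)).card ≤ B.card := by
  refine card_le_card_of_injOn (t z) ?_ ?_
  · intro x hx
    exact mem_coe.2 (mem_filter.1 (mem_coe.1 hx)).2
  · intro x hx x' hx' h
    have h1 := (mem_nbp G z x).1 (mem_filter.1 (mem_coe.1 hx)).1
    have h2 := (mem_nbp G z x').1 (mem_filter.1 (mem_coe.1 hx')).1
    exact hec.inj z x x' (thin2_V0 hz h1) (thin2_V0 hz h2) h

lemma col_mem (hec : EC (thin2 G X P) t) {z v : V} (hz : z ∈ P.V0) (h : G.Adj z v) :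
    t z v ∈ Fc2 G X P t v :=
  (mem_Fc2 v _).2 ⟨z, (thin2_V0 hz h).symm, hec.sym v z⟩

lemma col_mem' {z v : V} (hz : z ∈ P.V0) (h : G.Adj z v) :
    t z v ∈ Fc2 G X P t z :=
  (mem_Fc2 z _).2 ⟨v, thin2_V0 hz h, rfl⟩

/-- few colours at a member -/
lemma card_Fc2 (hd : DecP C g ρ ζ θ G d P) (hp : HP k d G X) (hs : SupP P X) {v : V}
    (hv : v ∉ P.V0) (hv' : v ∉ X.VH) : ((Fc2 G X P t v).card : ℝ) ≤ ζ * d := by
  refine le_trans ?_ (hd.thd v hv)
  have h1 : (Fc2 G X P t v).card ≤ (nb (thin2 G X P) v).card := card_image_le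
  have h2 : nb (thin2 G X P) v ⊆ nb (thin G P) v := by
    intro w hw
    rw [mem_nbp] at hw ⊢
    refine ⟨hw.1, fun h => hw.2 ⟨h, fun h3 => ?_⟩⟩
    exact not_H hp hs hv hv' h3.symm
  exact_mod_cast h1.trans (card_le_card h2)

/-- few members with a given colour -/
lemma cnt_load (hC : Cx C g ρ K π κ ε ε2 σ τ ζ θ k k2 K5 L G d P A X Ss t0 c Sp)
    (hP : PSt τ ζ G d P A X Ss t0 c Bd s t U) {b : ℕ} (hb : b < d + 2) (h1 : b ∉ Ss)
    (h2 : b ∉ Bd) (h3 : b ∉ U) :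
    ((univ.filter (fun x => x ∉ P.V0 ∧ b ∈ Fc2 G X P t x)).card : ℝ) ≤ M * (ε * ζ * d) := by
  have h4 : (univ.filter (fun x => x ∉ P.V0 ∧ b ∈ Fc2 G X P t x)).card =
      ∑ n : Fin M, ((univ.filter (fun x => x ∉ P.V0 ∧ b ∈ Fc2 G X P t x)).filter
        (fun x => P.pc x = n)).card :=
    card_eq_sum_card_fiberwise (fun _ _ => mem_coe.2 (mem_univ _))
  rw [h4]
  push_cast
  have h5 : ∀ n : Fin M, ((((univ.filter (fun x => x ∉ P.V0 ∧ b ∈ Fc2 G X P t x)).filter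
        (fun x => P.pc x = n)).card : ℕ) : ℝ) ≤ ε * ζ * d := by
    intro n
    refine le_trans ?_ (hC.pre.load n b)
    have h6 : ((univ.filter (fun x => x ∉ P.V0 ∧ b ∈ Fc2 G X P t x)).filter
        (fun x => P.pc x = n)) ⊆ (us (Fn G P t0 n) b).image (fun y => y.1) := by
      intro x hx
      rw [mem_filter, mem_filter] at hx
      obtain ⟨⟨-, h7, h8⟩, h9⟩ := hx
      rw [mem_image]
      refine ⟨⟨x, h7, h9⟩, ?_, rfl⟩
      unfold us
      rw [mem_filter]
      exact ⟨mem_univ _, (hP.tc b hb h1 h2 h3 x h7).1 h8⟩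
    exact_mod_cast (card_le_card h6).trans card_image_le
  calc ∑ n : Fin M, ((((univ.filter (fun x => x ∉ P.V0 ∧ b ∈ Fc2 G X P t x)).filter
        (fun x => P.pc x = n)).card : ℕ) : ℝ) ≤ ∑ n : Fin M, (ε * ζ * d) :=
        sum_le_sum fun n _ => h5 n
    _ = M * (ε * ζ * d) := by rw [sum_const, card_univ, Fintype.card_fin, nsmul_eq_mul]

/-- the excluded colours -/
lemma card_Ex (hC : Cx C g ρ K π κ ε ε2 σ τ ζ θ k k2 K5 L G d P A X Ss t0 c Sp)
    (hP : PSt τ ζ G d P A X Ss t0 c Bd s t U) (hBd : Bd.card ≤ 50 * L) (hs : s ≤ 50 * L) :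
    ((Ss ∪ Sp2 P X c ∪ Bd ∪ U).card : ℝ) ≤ θ * d + 101 * L := by
  have h1 := card_union_le (Ss ∪ Sp2 P X c ∪ Bd) U
  have h2 := card_union_le (Ss ∪ Sp2 P X c) Bd
  have h3 := card_union_le Ss (Sp2 P X c)
  have h4 := hC.sk
  have h5 := hC.nu.k2L
  have h6 := hP.Uc
  have h7 : (Sp2 P X c).card ≤ P.V0.card := by
    unfold Sp2
    exact card_image_le.trans (card_le_card sdiff_subset)
  have h8 : (Ss ∪ Sp2 P X c ∪ Bd ∪ U).card ≤ P.V0.card + 101 * L := by omega
  have h9 := hC.dec.V0c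
  have h10 : ((Ss ∪ Sp2 P X c ∪ Bd ∪ U).card : ℝ) ≤ P.V0.card + 101 * L := by exact_mod_cast h8
  linarith

/-- more reserved colours -/
lemma PSt.insert (hP : PSt τ ζ G d P A X Ss t0 c Bd s t U) {b : ℕ} (h1 : b ∉ Sp2 P X c)
    (h2 : b ∉ U) (h3 : b ≠ d + 2) : PSt τ ζ G d P A X Ss t0 c (insert b Bd) s t U where
  ec := hP.ec
  dm := hP.dm
  lt := hP.lt
  al := hP.al
  UP := hP.UP
  Ud := by
    rw [Finset.disjoint_left]
    intro x hx hx'
    rw [mem_union, mem_insert] at hx'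
    rcases hx' with hx' | rfl | hx'
    · exact Finset.disjoint_left.1 hP.Ud hx (mem_union_left _ hx')
    · exact h2 hx
    · exact Finset.disjoint_left.1 hP.Ud hx (mem_union_right _ hx')
  Uc := hP.Uc
  B0 := hP.B0.trans (subset_insert _ _)
  Bp := by
    rw [Finset.disjoint_left]
    intro x hx hx'
    rcases mem_insert.1 hx with rfl | hx
    · exact h1 hx'
    · exact Finset.disjoint_left.1 hP.Bp hx hx'
  B2 := by
    intro h
    rcases mem_insert.1 h with h | h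
    · exact h3 h.symm
    · exact hP.B2 h
  ch := hP.ch
  cn := hP.cn
  tc := by
    intro b' hb' h4 h5 h6
    exact hP.tc b' hb' h4 (fun h => h5 (mem_insert_of_mem h)) h6
  E := hP.E
  br := hP.br
  own := hP.own
  own2 := hP.own2
  hol := hP.hol

/-- the numbers -/
lemma numb (h : Nu C g ρ K π κ ε ε2 σ τ ζ θ M k k2 K5 L d) :
    0 < (d : ℝ) ∧ ∃ r : ℝ, 0 < r ∧ r ≤ d ∧ ζ * d ≤ r / 10 ^ 8 ∧ θ * d ≤ r / 10 ^ 8 ∧
      M * (ε * ζ * d) ≤ r / 10 ^ 8 ∧ (L : ℝ) ≤ r / 10 ^ 11 ∧ r / 10 ≤ d / (5 * (k + 1)) ∧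
      2 * κ * d ≤ d / (5 * (k + 1)) / 100 ∧ θ * d ≤ σ * d / 10 ^ 6 ∧ (L : ℝ) ≤ σ * d / 10 ^ 9 := by
  have hL1 : (1 : ℝ) ≤ L := by exact_mod_cast h.L1
  have hL0 : (0 : ℝ) < L := by linarith
  have hd0 : (0 : ℝ) ≤ d := Nat.cast_nonneg d
  have hσ := h.σ0
  have hσ1 := h.σ1
  have hζ := h.ζ0
  have hθ := h.θ0
  have hε := h.ε0
  have hκ := h.κ0
  have hτ := h.τ0
  have hLL : (L : ℝ) ≤ (L : ℝ) ^ 2 := by nlinarith
  have hL4 : (L : ℝ) ^ 2 ≤ (L : ℝ) ^ 4 := by
    have : (L : ℝ) ^ 4 = (L : ℝ) ^ 2 * (L : ℝ) ^ 2 := by ring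
    nlinarith
  have h1L2 : (1 : ℝ) ≤ (L : ℝ) ^ 2 := by nlinarith
  -- zeta
  have z1 : ζ * (L : ℝ) ^ 2 * 10 ^ 8 ≤ 1 := by
    have := h.ζL
    nlinarith
  have z2 : ζ * L * 10 ^ 8 ≤ 1 := by nlinarith
  have z3 : ζ ≤ 1 := by nlinarith
  have z4 : ζ ^ 2 ≤ 1 := by nlinarith
  -- theta
  have t1 : θ * 10 ^ 6 ≤ ζ * σ := by
    have h1 := h.θL
    have h2 : 10 ^ 6 * θ ≤ 10 ^ 6 * (L : ℝ) ^ 2 * θ := by nlinarith
    have h3 : ζ ^ 2 * σ ≤ ζ * σ := by nlinarith [mul_pos hζ hσ]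
    linarith
  have t2 : θ ≤ ζ := by nlinarith
  have t3 : θ * 10 ^ 6 ≤ σ := by nlinarith
  have t4 : θ ≤ 1 := by linarith
  -- kappa
  have k0 : (0 : ℝ) ≤ k := Nat.cast_nonneg k
  have k1 := h.κk
  have k2' : κ ≤ 1 := by nlinarith
  -- epsilon
  have e1 : ε * L ≤ 1 := by
    have h1 := h.ετ
    have h2 := h.τL
    have h3 : 10 ^ 6 * (L : ℝ) * τ ≤ 10 ^ 6 * (L : ℝ) ^ 2 * τ := by nlinarith
    nlinarith
  have e2 : ε ≤ 1 := by nlinarith
  have hM : (M : ℝ) ≤ L := by exact_mod_cast h.ML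
  have hM0 : (0 : ℝ) ≤ M := Nat.cast_nonneg M
  have e3 : M * ε ≤ 1 := by nlinarith
  -- d
  have d1 : ε * θ * ζ ^ 2 * σ * κ * d ≤ σ * d := by
    have h1 : ε * θ * ζ ^ 2 * κ ≤ 1 := by
      have a1 : ε * θ ≤ 1 := by nlinarith
      have a2 : ε * θ * ζ ^ 2 ≤ 1 := by nlinarith [mul_pos hε hθ]
      have a3 : 0 ≤ ε * θ * ζ ^ 2 := by positivity
      nlinarith
    have h2 : ε * θ * ζ ^ 2 * σ * κ * d = (ε * θ * ζ ^ 2 * κ) * (σ * d) := by ring
    rw [h2]
    have h3 : 0 ≤ σ * d := by positivity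
    nlinarith
  have d2 : 10 ^ 9 * (L : ℝ) ^ 4 ≤ σ * d := h.dL.trans d1
  have d3 : 10 ^ 9 * (L : ℝ) ^ 2 ≤ σ * d := by linarith
  have d4 : 0 < (d : ℝ) := by
    rcases hd0.lt_or_eq with h1 | h1
    · exact h1
    · rw [← h1] at d3
      nlinarith
  have hkL : (k : ℝ) ≤ L := by exact_mod_cast h.kL
  refine ⟨d4, d / L, by positivity, div_le_self hd0 hL1, ?_, ?_, ?_, ?_, ?_, ?_, ?_, ?_⟩
  · rw [le_div_iff₀ (by positivity), le_div_iff₀ hL0]
    nlinarith
  · rw [le_div_iff₀ (by positivity), le_div_iff₀ hL0]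
    have : θ * L * 10 ^ 8 ≤ 1 := by nlinarith
    nlinarith
  · rw [le_div_iff₀ (by positivity), le_div_iff₀ hL0]
    have h1 : M * (ε * ζ * d) * 10 ^ 8 * L = (M * ε) * (ζ * L * 10 ^ 8) * d := by ring
    rw [h1]
    have h2 : (M * ε) * (ζ * L * 10 ^ 8) ≤ 1 := by
      have : 0 ≤ ζ * L * 10 ^ 8 := by positivity
      nlinarith
    nlinarith
  · rw [le_div_iff₀ (by positivity), le_div_iff₀ hL0]
    nlinarith
  · rw [div_div, div_le_div_iff₀ (by positivity) (by positivity)]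
    nlinarith
  · rw [div_div, le_div_iff₀ (by positivity)]
    nlinarith
  · rw [le_div_iff₀ (by positivity)]
    nlinarith
  · rw [le_div_iff₀ (by positivity)]
    nlinarith

/-- many vertices of the clique have two names -/
lemma two_names (hC : Cx C g ρ K π κ ε ε2 σ τ ζ θ k k2 K5 L G d P A X Ss t0 c Sp) {n : Fin M}
    (hK : P.ty n = Ty.K)
    (h2 : 2 ≤ (Ss.filter (fun b => (((pV P n).filter (fun v => b ∉ X.nm v)).card : ℝ) <
      ζ / 4 * d)).card) :
    (1 - 3 / 2 * ζ) * d ≤ (((pV P n).filter (fun v => 2 ≤ (X.nm v).card)).card : ℝ) := by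
  have hcard : Fintype.card (Ts P n) = (pV P n).card := by
    rw [Fintype.card_subtype]
    rfl
  have hL := hC.dec.kL n hK
  rw [hcard] at hL
  obtain ⟨b1, hb1, b2, hb2, hne⟩ := one_lt_card.1 (lt_of_lt_of_le (by norm_num) h2)
  rw [mem_filter] at hb1 hb2
  have h3 : pV P n ⊆ ((pV P n).filter (fun v => 2 ≤ (X.nm v).card)) ∪
      (((pV P n).filter (fun v => b1 ∉ X.nm v)) ∪ ((pV P n).filter (fun v => b2 ∉ X.nm v))) := by
    intro v hv
    rw [mem_union, mem_union, mem_filter, mem_filter, mem_filter]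
    by_cases h4 : b1 ∈ X.nm v
    · by_cases h5 : b2 ∈ X.nm v
      · left
        refine ⟨hv, ?_⟩
        exact one_lt_card.2 ⟨b1, h4, b2, h5, hne⟩
      · exact Or.inr (Or.inr ⟨hv, h5⟩)
    · exact Or.inr (Or.inl ⟨hv, h4⟩)
  have h4 := (card_le_card h3).trans ((card_union_le _ _).trans
    (Nat.add_le_add_left (card_union_le _ _) _))
  have h5 : ((pV P n).card : ℝ) ≤ (((pV P n).filter (fun v => 2 ≤ (X.nm v).card)).card : ℝ) +
      ((((pV P n).filter (fun v => b1 ∉ X.nm v)).card : ℝ) +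
        (((pV P n).filter (fun v => b2 ∉ X.nm v)).card : ℝ)) := by exact_mod_cast h4
  have h6 := hb1.2
  have h7 := hb2.2
  linarith

/-- a hub -/
lemma hub (hC : Cx C g ρ K π κ ε ε2 σ τ ζ θ k k2 K5 L G d P A X Ss t0 c Sp) {n : Fin M}
    (hK : P.ty n = Ty.K) (hVH : ∀ v ∈ pV P n, v ∉ X.VH)
    (h2 : 2 ≤ (Ss.filter (fun b => (((pV P n).filter (fun v => b ∉ X.nm v)).card : ℝ) <
      ζ / 4 * d)).card) :
    ∃ z ∈ W0 X, z ∈ P.V0 ∧ (d : ℝ) / (5 * (k + 1)) ≤ ((nb G z ∩ pV P n).card : ℝ) := by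
  obtain ⟨hd0, r, hr0, hrd, q1, q2, q3, q4, q5, q6, q7, q8⟩ := numb hC.nu
  have hB := two_names hC hK h2
  set B := (pV P n).filter (fun v => 2 ≤ (X.nm v).card) with hBdef
  by_contra hcon
  push Not at hcon
  -- double counting
  have h3 : 2 * B.card ≤ ∑ v ∈ B, (nb G v ∩ W0 X).card := by
    rw [mul_comm, ← smul_eq_mul, ← sum_const]
    apply sum_le_sum
    intro v hv
    have h4 := hC.hp.nmF v ∅ (empty_subset _)
    rw [image_empty, sdiff_empty, sdiff_empty] at h4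
    exact (mem_filter.1 hv).2.trans h4
  have h4 : ∑ v ∈ B, (nb G v ∩ W0 X).card = ∑ z ∈ W0 X, (nb G z ∩ B).card := by
    have e1 : ∀ v ∈ B, (nb G v ∩ W0 X).card = ∑ z ∈ W0 X, if G.Adj v z then 1 else 0 := by
      intro v _
      rw [← card_filter]
      congr 1
      ext z
      rw [mem_inter, mem_filter, mem_nbp]
      tauto
    have e2 : ∀ z ∈ W0 X, (nb G z ∩ B).card = ∑ v ∈ B, if G.Adj v z then 1 else 0 := by
      intro z _
      rw [← card_filter]
      congr 1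
      ext v
      rw [mem_inter, mem_nbp, G.adj_comm]
      exact ⟨fun h => mem_filter.2 ⟨h.2, h.1⟩, fun h => ⟨(mem_filter.1 h).2, (mem_filter.1 h).1⟩⟩
    rw [sum_congr rfl e1, sum_comm, sum_congr rfl e2]
  have h5 : ∀ z ∈ W0 X, ((nb G z ∩ B).card : ℝ) ≤ d / (5 * (k + 1)) := by
    intro z hz
    by_cases hz0 : z ∈ P.V0
    · refine le_trans ?_ (hcon z hz hz0).le
      exact_mod_cast card_le_card (inter_subset_inter_left (filter_subset _ _))
    · have h6 : z ∈ X.VH := by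
        rcases mem_union.1 hz with h | h
        · exact h
        · exact absurd (hC.sup z h).1 hz0
      have h7 : nb G z ∩ B ⊆ nb (thin G P) z := by
        intro v hv
        rw [mem_inter, mem_nbp] at hv
        rw [mem_nbp]
        refine ⟨hv.1, fun h8 => ?_⟩
        have h9 := ((mem_pV P n v).1 (mem_filter.1 hv.2).1)
        have h10 : P.pc z = P.pc v := h8.2.2.2.1
        exact hVH z ((mem_pV P n z).2 ⟨hz0, h10.trans h9.2⟩) h6
      have h8 : ((nb G z ∩ B).card : ℝ) ≤ ((nb (thin G P) z).card : ℝ) := by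
        exact_mod_cast card_le_card h7
      have h9 := hC.dec.thd z hz0
      linarith
  have h6 : (2 * B.card : ℝ) ≤ ∑ z ∈ W0 X, ((nb G z ∩ B).card : ℝ) := by
    have := h3.trans_eq h4
    exact_mod_cast this
  have h7 : ∑ z ∈ W0 X, ((nb G z ∩ B).card : ℝ) ≤ (W0 X).card * (d / (5 * (k + 1))) := by
    refine (sum_le_sum h5).trans (le_of_eq ?_)
    rw [sum_const, nsmul_eq_mul]
  have h8 : (W0 X).card ≤ 2 * k := by
    have h9 := card_union_le X.VH X.S0
    have h10 := hC.hp.VHk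
    have h11 := hC.hp.S0k
    have h12 : (W0 X).card ≤ X.VH.card + X.S0.card := h9
    omega
  have h9 : ((W0 X).card : ℝ) ≤ 2 * k := by exact_mod_cast h8
  have h10 : ((W0 X).card : ℝ) * (d / (5 * (k + 1))) ≤ 2 * k * (d / (5 * (k + 1))) :=
    mul_le_mul_of_nonneg_right h9 (by positivity)
  have h11 : 2 * (k : ℝ) * (d / (5 * (k + 1))) ≤ 2 / 5 * d := by
    rw [mul_div_assoc', div_le_iff₀ (by positivity)]
    nlinarith
  linarith

/-- the exchange makes the number of vertices with colour `b3` odd -/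
lemma parity {n : Fin M} {t' : V → V → ℕ} {z v x : V} {b b3 : ℕ}
    (hS : StepR (thin2 G X P) t t' z v x b b3 b) (hz : z ∈ P.V0) (hv : v ∈ pV P n)
    (hx : x ∉ pV P n) (hb3 : b3 ∉ Fc2 G X P t v)
    (he : ¬ Odd (Fintype.card (Ts P n) - (us (Fn2 G X P t n) b3).card)) :
    Odd (Fintype.card (Ts P n) - (us (Fn2 G X P t' n) b3).card) := by
  have hv' := (mem_pV P n v).1 hv
  have hmus : ∀ (tt : V → V → ℕ) (y : Ts P n), y ∈ us (Fn2 G X P tt n) b3 ↔
      b3 ∈ Fc2 G X P tt y.1 := by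
    intro tt y
    unfold us
    rw [mem_filter]
    exact ⟨fun h => h.2, fun h => ⟨mem_univ _, h⟩⟩
  have h1 : us (Fn2 G X P t' n) b3 = insert (⟨v, hv'⟩ : Ts P n) (us (Fn2 G X P t n) b3) := by
    ext y
    rw [mem_insert, hmus, hmus]
    by_cases hyv : y.1 = v
    · have h2 : b3 ∈ Fc2 G X P t' y.1 := by
        rw [hyv]
        have h3 : Fc2 G X P t' v = insert b3 ((Fs (thin2 G X P) t v).erase b) := hS.Fv
        rw [h3]
        exact mem_insert_self _ _
      exact ⟨fun _ => Or.inl (Subtype.ext hyv), fun _ => h2⟩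
    · have h2 : y ≠ (⟨v, hv'⟩ : Ts P n) := fun h => hyv (congrArg Subtype.val h)
      have h3 : y.1 ≠ z := by
        intro h
        exact y.2.1 (h ▸ hz)
      have h4 : y.1 ≠ x := by
        intro h
        exact hx ((mem_pV P n x).2 (h ▸ y.2))
      have h5 : Fc2 G X P t' y.1 = Fc2 G X P t y.1 := hS.Fo y.1 h3 hyv h4
      rw [h5]
      exact ⟨fun h => Or.inr h, fun h => h.resolve_left h2⟩
  have h2 : (⟨v, hv'⟩ : Ts P n) ∉ us (Fn2 G X P t n) b3 := by
    rw [hmus]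
    exact hb3
  have h3 : (us (Fn2 G X P t' n) b3).card = (us (Fn2 G X P t n) b3).card + 1 := by
    rw [h1, card_insert_of_notMem h2]
  have h4 : (us (Fn2 G X P t' n) b3).card ≤ Fintype.card (Ts P n) := card_le_univ _
  rw [Nat.not_odd_iff_even] at he
  obtain ⟨m, hm⟩ := he
  rw [h3] at h4 ⊢
  refine ⟨m - 1, ?_⟩
  omega

end ctx

/-- PAR1 -/
theorem stmt_PAR1 (hCNS : Stmt_CNS.{u}) (hSTPB : Stmt_STPB.{u}) : Stmt_PAR1.{u} := by
  intro C g ρ K π κ ε ε2 σ τ ζ θ M k k2 K5 L V _ G d P A X Ss t0 c Sp hC Bd s t U n hP hBd hs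
    hS hH hO
  -- nothing to do
  have triv : (P.ty n = Ty.K → (∀ v w, v ≠ w → (bk2 G X P n).Adj v w) →
      (∀ v ∈ pV P n, v ∉ X.VH) →
      2 ≤ (Ss.filter (fun b => (((pV P n).filter (fun v => b ∉ X.nm v)).card : ℝ) <
        ζ / 4 * d)).card →
      ∃ b, b < d + 2 ∧ b ∉ Ss ∧ b ∈ Sp2 P X c ∪ Bd ∪ U ∧
        Odd (Fintype.card (Ts P n) - (us (Fn2 G X P t n) b).card)) →
      ∃ (t' : V → V → ℕ) (Bd' : Finset ℕ) (s' : ℕ), s' ≤ s + 1 ∧ Bd ⊆ Bd' ∧
        Bd'.card ≤ Bd.card + 2 ∧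
        PSt τ ζ G d P A X Ss t0 c Bd' s' t' U ∧ gS G X t' ∧ gH G P X t' ∧ gO G P X t' ∧
        (∀ b, b ∈ Ss ∪ Sp2 P X c ∪ Bd ∪ U → ∀ v, v ∉ P.V0 →
          (b ∈ Fc2 G X P t' v ↔ b ∈ Fc2 G X P t v)) ∧
        (P.ty n = Ty.K → (∀ v w, v ≠ w → (bk2 G X P n).Adj v w) → (∀ v ∈ pV P n, v ∉ X.VH) →
          2 ≤ (Ss.filter (fun b => (((pV P n).filter (fun v => b ∉ X.nm v)).card : ℝ) <
            ζ / 4 * d)).card →
          ∃ b, b < d + 2 ∧ b ∉ Ss ∧ b ∈ Sp2 P X c ∪ Bd' ∪ U ∧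
            Odd (Fintype.card (Ts P n) - (us (Fn2 G X P t' n) b).card)) :=
    fun h => ⟨t, Bd, s, by omega, Subset.rfl, by omega, hP, hS, hH, hO, fun _ _ _ _ => Iff.rfl, h⟩
  by_cases hcond : P.ty n = Ty.K ∧ (∀ v w, v ≠ w → (bk2 G X P n).Adj v w) ∧
      (∀ v ∈ pV P n, v ∉ X.VH) ∧
      2 ≤ (Ss.filter (fun b => (((pV P n).filter (fun v => b ∉ X.nm v)).card : ℝ) <
        ζ / 4 * d)).card
  swap
  · exact triv fun h1 h2 h3 h4 => absurd ⟨h1, h2, h3, h4⟩ hcond
  obtain ⟨hK, hcl, hVH, h2b⟩ := hcond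
  by_cases hwit : ∃ b, b < d + 2 ∧ b ∉ Ss ∧
      Odd (Fintype.card (Ts P n) - (us (Fn2 G X P t n) b).card)
  · obtain ⟨b, hb1, hb2, hb3⟩ := hwit
    by_cases hb4 : b ∈ Sp2 P X c ∪ Bd ∪ U
    · exact triv fun _ _ _ _ => ⟨b, hb1, hb2, hb4, hb3⟩
    · rw [mem_union, mem_union] at hb4
      push Not at hb4
      refine ⟨t, insert b Bd, s, by omega, subset_insert _ _, ?_,
        PSt.insert hP hb4.1.1 hb4.2 hb1.ne, hS, hH, hO, fun _ _ _ _ => Iff.rfl,
        fun _ _ _ _ => ⟨b, hb1, hb2, ?_, hb3⟩⟩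
      · have := card_insert_le b Bd
        omega
      · exact mem_union_left _ (mem_union_right _ (mem_insert_self _ _))
  -- an exchange is needed
  push Not at hwit
  obtain ⟨hd0, r, hr0, hrd, q1, q2, q3, q4, q5, q6, q7, q8⟩ := numb hC.nu
  have hnu := hC.nu
  have hEx := card_Ex hC hP hBd hs
  obtain ⟨z, hzW, hz0, hzN⟩ := hub hC hK hVH h2b
  have hB2 := two_names hC hK h2b
  have hL1 : (1 : ℝ) ≤ L := by exact_mod_cast hnu.L1
  have hlt : ∀ v, G.Adj z v → v ∉ P.V0 → v ∉ X.VH → t z v < d + 2 := fun v h1 h2 h3 =>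
    hP.lt z v (thin2_V0 hz0 h1) (not_H hC.hp hC.sup h2 h3)
  have halc : ∀ v, G.Adj z v → v ∉ P.V0 → v ∉ X.VH → alc P A v (t z v) := fun v h1 h2 h3 =>
    hP.al v h2 (t z v) (col_mem hP.ec hz0 h1) (hlt v h1 h2 h3)
  -- the vertices
  suffices hfind : ∃ v x, G.Adj z v ∧ G.Adj z x ∧ v ∈ pV P n ∧ x ∉ pV P n ∧ x ∉ P.V0 ∧
      x ∉ X.VH ∧ t z v ∉ Ss ∪ Sp2 P X c ∪ Bd ∪ U ∧ t z x ∉ Ss ∪ Sp2 P X c ∪ Bd ∪ U ∧
      t z x ∉ Fc2 G X P t v ∧ t z v ∉ Fc2 G X P t x ∧ alc P A v (t z x) ∧ alc P A x (t z v) ∧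
      (z ∈ X.S0 → t z x ∉ X.ne z v ∧ t z v ∉ X.ne z x) by
    obtain ⟨v, x, hv, hx, hvn, hxn, hx0, hxV, hbE, hb3E, f1, f2, a1, a2, hne⟩ := hfind
    have hv0 := ((mem_pV P n v).1 hvn).1
    have hvV := hVH v hvn
    have hvx : v ≠ x := by
      rintro rfl
      exact hxn hvn
    have hbE' := hbE
    have hb3E' := hb3E
    simp only [mem_union, not_or] at hbE' hb3E'
    obtain ⟨⟨⟨u1, u2⟩, u3⟩, u4⟩ := hbE'
    obtain ⟨⟨⟨w1, w2⟩, w3⟩, w4⟩ := hb3E'
    obtain ⟨t', hst, hP'⟩ := hSTPB C g ρ K π κ ε ε2 σ τ ζ θ M k k2 K5 L G d P A X Ss t0 c Sp hC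
      Bd s t U hP z v x (t z v) (t z x) hzW hz0 hv hx hvx hv0 hvV hx0 hxV rfl rfl
      (by simp only [mem_union, not_or]; exact ⟨⟨u1, u2⟩, u4⟩)
      (by simp only [mem_union, not_or]; exact ⟨⟨w1, w2⟩, w4⟩) f1 f2 a1 a2 hne
    have hFz : ∀ y ∈ P.V0, Fc2 G X P t' y = Fc2 G X P t y := by
      intro y hy
      have y1 : y ≠ v := by rintro rfl; exact hv0 hy
      have y2 : y ≠ x := by rintro rfl; exact hx0 hy
      by_cases y3 : y = z
      · rw [y3]
        have e1 : Fc2 G X P t' z = insert (t z v) ((Fc2 G X P t z).erase (t z v)) := hst.Fz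
        rw [e1, insert_erase (col_mem' hz0 hv)]
      · exact hst.Fo y y3 y1 y2
    refine ⟨t', insert (t z v) (insert (t z x) Bd), s + 1, le_rfl,
      (subset_insert _ _).trans (subset_insert _ _), ?_, hP', ?_, ?_, ?_, ?_, ?_⟩
    · have e1 := card_insert_le (t z v) (insert (t z x) Bd)
      have e2 := card_insert_le (t z x) Bd
      omega
    · -- gS
      intro y hy w hyw hyH
      have hy0 := (hC.sup y hy).1
      have y1 : y ≠ v := by rintro rfl; exact hv0 hy0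
      have y2 : y ≠ x := by rintro rfl; exact hx0 hy0
      by_cases c1 : y = z ∧ w = v
      · rw [c1.1, c1.2, hst.zv]
        exact (hne (c1.1 ▸ hy)).1
      · by_cases c2 : y = z ∧ w = x
        · rw [c2.1, c2.2, hst.zx]
          exact (hne (c2.1 ▸ hy)).2
        · rw [hst.old y w (by
            rintro (h | h)
            · exact c1 h
            · exact y1 h.1) (by
            rintro (h | h)
            · exact c2 h
            · exact y2 h.1)]
          exact hS y hy w hyw hyH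
    · intro y hyW hy0 u hu
      rw [hFz y hy0]
      exact hH y hyW hy0 u hu
    · intro y hyW hy0
      rw [hFz y hy0]
      exact hO y hyW hy0
    · intro b' hb' y hy
      have c1 : b' ≠ t z v := by rintro rfl; exact hbE hb'
      have c2 : b' ≠ t z x := by rintro rfl; exact hb3E hb'
      have yz : y ≠ z := by rintro rfl; exact hy hz0
      by_cases y1 : y = v
      · rw [y1]
        have e1 : Fc2 G X P t' v = insert (t z x) ((Fc2 G X P t v).erase (t z v)) := hst.Fv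
        rw [e1, mem_insert, mem_erase]
        tauto
      · by_cases y2 : y = x
        · rw [y2]
          have e1 : Fc2 G X P t' x = insert (t z v) ((Fc2 G X P t x).erase (t z x)) := hst.Fx
          rw [e1, mem_insert, mem_erase]
          tauto
        · have e1 : Fc2 G X P t' y = Fc2 G X P t y := hst.Fo y yz y1 y2
          rw [e1]
    · intro _ _ _ _
      refine ⟨t z x, hlt x hx hx0 hxV, w1, ?_, ?_⟩
      · exact mem_union_left _ (mem_union_right _ (mem_insert_of_mem (mem_insert_self _ _)))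
      · exact parity hst hz0 hvn hxn f1 (hwit (t z x) (hlt x hx hx0 hxV) w1)
  -- the search
  rcases mem_union.1 hzW with hzV | hzS
  · -- `z ∈ VH`
    have hzS' : z ∉ X.S0 := fun h => Finset.disjoint_left.1 hC.hp.dj hzV h
    have hout := (hC.vh z hzV hz0).2.2 n (by rw [hK]; decide)
    -- choose `x`
    obtain ⟨x, hx, hxn, hx0, hxV, hxE⟩ : ∃ x, G.Adj z x ∧ x ∉ pV P n ∧ x ∉ P.V0 ∧ x ∉ X.VH ∧
        t z x ∉ Ss ∪ Sp2 P X c ∪ Bd ∪ U := by
      by_contra hcon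
      push Not at hcon
      have h1 : nb G z \ pV P n ⊆ P.V0 ∪ (X.VH ∪
          (nb G z).filter (fun x => t z x ∈ Ss ∪ Sp2 P X c ∪ Bd ∪ U)) := by
        intro x hx
        rw [mem_sdiff, mem_nbp] at hx
        by_cases e1 : x ∈ P.V0
        · exact mem_union_left _ e1
        · by_cases e2 : x ∈ X.VH
          · exact mem_union_right _ (mem_union_left _ e2)
          · exact mem_union_right _ (mem_union_right _ (mem_filter.2
              ⟨(mem_nbp _ _ _).2 hx.1, hcon x hx.1 hx.2 e1 e2⟩))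
      have h2 := (card_le_card h1).trans ((card_union_le _ _).trans
        (Nat.add_le_add_left (card_union_le _ _) _))
      have h3 := cnt_col hP.ec hz0 (Ss ∪ Sp2 P X c ∪ Bd ∪ U)
      have h4 := hC.hp.VHk
      have h5 := hnu.kL
      have h6 : (nb G z \ pV P n).card ≤ P.V0.card + L +
          (Ss ∪ Sp2 P X c ∪ Bd ∪ U).card := by omega
      have h7 : ((nb G z \ pV P n).card : ℝ) ≤ P.V0.card + L +
          (Ss ∪ Sp2 P X c ∪ Bd ∪ U).card := by exact_mod_cast h6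
      have h8 := hC.dec.V0c
      have h9 : 0 < σ * d := mul_pos hnu.σ0 hd0
      linarith
    have hb3lt := hlt x hx hx0 hxV
    have hxE' := hxE
    simp only [mem_union, not_or] at hxE'
    obtain ⟨⟨⟨w1, w2⟩, w3⟩, w4⟩ := hxE'
    -- choose the third
    obtain ⟨i, hi⟩ : ∃ i : Fin 3, ∀ v, v ∈ pV P n → P.th v = i → alc P A v (t z x) ∧
        (P.ty (P.pc x) = Ty.K → P.th x = i) := by
      by_cases hxK : P.ty (P.pc x) = Ty.K
      · refine ⟨P.th x, fun v hv hi => ⟨?_, fun _ => rfl⟩⟩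
        have e1 := halc x hx hx0 hxV
        unfold alc at e1 ⊢
        rw [if_pos hxK] at e1
        rw [((mem_pV P n v).1 hv).2, if_pos hK, hi]
        exact e1
      · obtain ⟨i, hi⟩ : ∃ i : Fin 3, t z x ∉ A.C i := by
          by_contra hcon
          push Not at hcon
          exact Finset.disjoint_left.1 (hC.pal.Cdis 0 1 (by decide)) (hcon 0) (hcon 1)
        refine ⟨i, fun v hv hvi => ⟨?_, fun h => absurd h hxK⟩⟩
        unfold alc
        rw [((mem_pV P n v).1 hv).2, if_pos hK, hvi]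
        exact hi
    -- the third is large
    have hcel : cel P n false = pV P n := by unfold cel; rw [if_pos hK]
    have hrr : rr P n = 3 := by unfold rr; rw [if_pos hK]
    have hbig := hC.pd.big z hz0 n false (by
      rw [hcel]
      refine le_trans ?_ hzN
      have e1 : ζ ^ 2 * d ≤ ζ * d := by
        have e2 : ζ ≤ 1 := by
          by_contra hcon
          push Not at hcon
          have : (d : ℝ) < ζ * d := by nlinarith
          linarith
        have e3 : ζ ^ 2 ≤ ζ := by nlinarith [hnu.ζ0]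
        exact mul_le_mul_of_nonneg_right e3 hd0.le
      linarith)
    have hbi := hbig i (by rw [hrr]; exact i.2)
    rw [hcel, hrr] at hbi
    have hclb : nb G z ∩ clb P n false i ⊆ (nb G z).filter (fun v => v ∈ pV P n ∧ P.th v = i) := by
      intro v hv
      rw [mem_inter] at hv
      unfold clb at hv
      rw [mem_filter, hcel] at hv
      rw [mem_filter]
      refine ⟨hv.1, hv.2.1, ?_⟩
      have e1 := hv.2.2
      unfold lbl at e1
      rw [((mem_pV P n v).1 hv.2.1).2, if_pos hK] at e1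
      exact e1
    have hlow : 32 / 100 * ((d : ℝ) / (5 * (k + 1))) ≤
        (((nb G z).filter (fun v => v ∈ pV P n ∧ P.th v = i)).card : ℝ) := by
      have e1 : ((nb G z ∩ clb P n false i).card : ℝ) ≤
        (((nb G z).filter (fun v => v ∈ pV P n ∧ P.th v = i)).card : ℝ) := by
        exact_mod_cast card_le_card hclb
      have e2 := (abs_le.1 hbi).1
      push_cast at e2
      linarith
    -- choose `v`
    obtain ⟨v, hv, hvn, hvi, hvE, hvF, hvF', hvQ⟩ : ∃ v, G.Adj z v ∧ v ∈ pV P n ∧ P.th v = i ∧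
        t z v ∉ Ss ∪ Sp2 P X c ∪ Bd ∪ U ∧ t z x ∉ Fc2 G X P t v ∧ t z v ∉ Fc2 G X P t x ∧
        t z v ∉ A.Q (P.pt x) := by
      by_contra hcon
      push Not at hcon
      have h1 : (nb G z).filter (fun v => v ∈ pV P n ∧ P.th v = i) ⊆
          ((nb G z).filter (fun x => t z x ∈ Ss ∪ Sp2 P X c ∪ Bd ∪ U)) ∪
          ((univ.filter (fun y => y ∉ P.V0 ∧ t z x ∈ Fc2 G X P t y)) ∪
          (((nb G z).filter (fun y => t z y ∈ Fc2 G X P t x)) ∪
          ((nb G z).filter (fun y => t z y ∈ A.Q (P.pt x))))) := by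
        intro v hv
        obtain ⟨e1, e2, e3⟩ := mem_filter.1 hv
        by_cases c1 : t z v ∈ Ss ∪ Sp2 P X c ∪ Bd ∪ U
        · exact mem_union_left _ (mem_filter.2 ⟨e1, c1⟩)
        · by_cases c2 : t z x ∈ Fc2 G X P t v
          · exact mem_union_right _ (mem_union_left _ (mem_filter.2
              ⟨mem_univ _, ((mem_pV P n v).1 e2).1, c2⟩))
          · by_cases c3 : t z v ∈ Fc2 G X P t x
            · exact mem_union_right _ (mem_union_right _ (mem_union_left _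
                (mem_filter.2 ⟨e1, c3⟩)))
            · exact mem_union_right _ (mem_union_right _ (mem_union_right _
                (mem_filter.2 ⟨e1, hcon v ((mem_nbp _ _ _).1 e1) e2 e3 c1 c2 c3⟩)))
      have h2 := (card_le_card h1).trans ((card_union_le _ _).trans
        (Nat.add_le_add_left ((card_union_le _ _).trans
          (Nat.add_le_add_left (card_union_le _ _) _)) _))
      have h3 := cnt_col hP.ec hz0 (Ss ∪ Sp2 P X c ∪ Bd ∪ U)
      have h4 := cnt_col hP.ec hz0 (Fc2 G X P t x)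
      have h5 := cnt_col hP.ec hz0 (A.Q (P.pt x))
      have h6 := cnt_load hC hP hb3lt w1 w3 w4
      have h7 := card_Fc2 (t := t) hC.dec hC.hp hC.sup hx0 hxV
      have h8 := (hC.pal.Qc (P.pt x)).2
      have h9 : (((nb G z).filter (fun v => v ∈ pV P n ∧ P.th v = i)).card : ℝ) ≤
          ((Ss ∪ Sp2 P X c ∪ Bd ∪ U).card : ℝ) +
          (((univ.filter (fun y => y ∉ P.V0 ∧ t z x ∈ Fc2 G X P t y)).card : ℝ) +
          (((Fc2 G X P t x).card : ℝ) + ((A.Q (P.pt x)).card : ℝ))) := by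
        exact_mod_cast h2.trans (by omega)
      linarith
    refine ⟨v, x, hv, hx, hvn, hxn, hx0, hxV, hvE, hxE, hvF, hvF', (hi v hvn hvi).1, ?_,
      fun h => absurd h hzS'⟩
    have hvV := hVH v hvn
    have hv0 := ((mem_pV P n v).1 hvn).1
    by_cases hxK : P.ty (P.pc x) = Ty.K
    · have e1 := halc v hv hv0 hvV
      unfold alc at e1 ⊢
      rw [((mem_pV P n v).1 hvn).2, if_pos hK, hvi] at e1
      rw [if_pos hxK, (hi v hvn hvi).2 hxK]
      exact e1
    · unfold alc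
      rw [if_neg hxK]
      exact hvQ
  · -- `z ∈ S0`
    -- choose `v`
    obtain ⟨v, hv, hvn, hvE⟩ : ∃ v, G.Adj z v ∧ v ∈ pV P n ∧
        t z v ∉ Ss ∪ Sp2 P X c ∪ Bd ∪ U := by
      by_contra hcon
      push Not at hcon
      have h1 : nb G z ∩ pV P n ⊆
          (nb G z).filter (fun x => t z x ∈ Ss ∪ Sp2 P X c ∪ Bd ∪ U) := by
        intro v hv
        obtain ⟨e1, e2⟩ := mem_inter.1 hv
        exact mem_filter.2 ⟨e1, hcon v ((mem_nbp _ _ _).1 e1) e2⟩
      have h2 := (card_le_card h1).trans (cnt_col hP.ec hz0 (Ss ∪ Sp2 P X c ∪ Bd ∪ U))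
      have h3 : ((nb G z ∩ pV P n).card : ℝ) ≤ ((Ss ∪ Sp2 P X c ∪ Bd ∪ U).card : ℝ) := by
        exact_mod_cast h2
      linarith
    have hv0 := ((mem_pV P n v).1 hvn).1
    have hvV := hVH v hvn
    have hvE' := hvE
    simp only [mem_union, not_or] at hvE'
    obtain ⟨⟨⟨w1, w2⟩, w3⟩, w4⟩ := hvE'
    have hblt := hlt v hv hv0 hvV
    have hcand := hCNS C g ρ K π κ ε ε2 σ τ ζ θ M k k2 K5 L G d P A X Ss t0 c Sp hC z v (t z v)
      (t z) hzS hv0 (halc v hv hv0 hvV)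
      (fun y hy y' hy' h => hP.ec.inj z y y' (thin2_V0 hz0 ((mem_nbp _ _ _).1 (mem_coe.1 hy)))
        (thin2_V0 hz0 ((mem_nbp _ _ _).1 (mem_coe.1 hy'))) h)
      (by
        intro y hy hy0
        have hy' := (mem_nbp _ _ _).1 hy
        by_cases hyH : X.H.Adj z y
        · rw [hP.dm z y hyH]
          unfold alc
          split_ifs
          · intro h
            exact absurd (mem_range.1 (hC.pal.Clt _ h)) (lt_irrefl _)
          · intro h
            cases hpt : P.pt y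
            · rw [hpt] at h
              exact absurd (mem_range.1 (hC.pal.Clt _ (hC.pal.Q0 h))) (lt_irrefl _)
            · rw [hpt] at h
              exact absurd (mem_range.1 (hC.pal.Clt _ (hC.pal.Q1 h))) (lt_irrefl _)
        · exact hP.al y hy0 (t z y) (col_mem hP.ec hz0 hy') (hP.lt z y (thin2_V0 hz0 hy') hyH))
    -- gadgets are disjoint from the piece
    have hgad : ∀ x, x ∉ P.V0 → (x ∈ X.Gd z false ∨ x ∈ X.Gd z true) → x ∉ pV P n := by
      intro x hx0 hxG hxn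
      obtain ⟨j, hj⟩ : ∃ j, x ∈ X.Gd z j := by
        rcases hxG with h | h
        · exact ⟨_, h⟩
        · exact ⟨_, h⟩
      have hpos : 0 < ((pV P n).filter (fun v => 2 ≤ (X.nm v).card)).card := by
        have e1 : (0 : ℝ) < (1 - 3 / 2 * ζ) * d := by linarith
        exact_mod_cast e1.trans_le hB2
      obtain ⟨y, hy⟩ := card_pos.1 hpos
      obtain ⟨hyn, hy2⟩ := mem_filter.1 hy
      have hxnm := (hC.hp.gd4 z hzS j x hj).2.2.1
      have hxy : x ≠ y := by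
        rintro rfl
        rw [hxnm, card_empty] at hy2
        omega
      have e1 : (bk2 G X P n).Adj ⟨x, (mem_pV P n x).1 hxn⟩ ⟨y, (mem_pV P n y).1 hyn⟩ :=
        hcl _ _ (fun h => hxy (congrArg Subtype.val h))
      have e2 : G.Adj x y := e1.1.1
      rcases hC.hp.gd2 z hzS j x hj y e2 with e3 | e3
      · have e4 := (hC.hp.gd4 z hzS j y e3).2.2.1
        rw [e4, card_empty] at hy2
        omega
      · exact ((mem_pV P n y).1 hyn).1 (e3 ▸ hz0)
    -- choose `x`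
    obtain ⟨x, hx, hx0, hxG, a1, a2, hxE, hxF, hxF', hxne⟩ : ∃ x, G.Adj z x ∧ x ∉ P.V0 ∧
        (x ∈ X.Gd z false ∨ x ∈ X.Gd z true) ∧ alc P A x (t z v) ∧ alc P A v (t z x) ∧
        t z x ∉ Ss ∪ Sp2 P X c ∪ Bd ∪ U ∧ t z x ∉ Fc2 G X P t v ∧ t z v ∉ Fc2 G X P t x ∧
        t z x ∉ X.ne z v := by
      by_contra hcon
      push Not at hcon
      have h1 : (nb G z).filter (fun x => x ∉ P.V0 ∧
          (x ∈ X.Gd z false ∨ x ∈ X.Gd z true) ∧ alc P A x (t z v) ∧ alc P A v (t z x)) ⊆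
          ((nb G z).filter (fun x => t z x ∈ Ss ∪ Sp2 P X c ∪ Bd ∪ U)) ∪
          ((univ.filter (fun y => y ∉ P.V0 ∧ t z v ∈ Fc2 G X P t y)) ∪
          (((nb G z).filter (fun y => t z y ∈ Fc2 G X P t v)) ∪
          ((nb G z).filter (fun y => t z y ∈ X.ne z v)))) := by
        intro x hx
        obtain ⟨e1, e2, e3, e4, e5⟩ := mem_filter.1 hx
        by_cases c1 : t z x ∈ Ss ∪ Sp2 P X c ∪ Bd ∪ U
        · exact mem_union_left _ (mem_filter.2 ⟨e1, c1⟩)
        · by_cases c2 : t z v ∈ Fc2 G X P t x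
          · exact mem_union_right _ (mem_union_left _ (mem_filter.2 ⟨mem_univ _, e2, c2⟩))
          · by_cases c3 : t z x ∈ Fc2 G X P t v
            · exact mem_union_right _ (mem_union_right _ (mem_union_left _
                (mem_filter.2 ⟨e1, c3⟩)))
            · exact mem_union_right _ (mem_union_right _ (mem_union_right _
                (mem_filter.2 ⟨e1, hcon x ((mem_nbp _ _ _).1 e1) e2 e3 e4 e5 c1 c3 c2⟩)))
      have h2 := (card_le_card h1).trans ((card_union_le _ _).trans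
        (Nat.add_le_add_left ((card_union_le _ _).trans
          (Nat.add_le_add_left (card_union_le _ _) _)) _))
      have h3 := cnt_col hP.ec hz0 (Ss ∪ Sp2 P X c ∪ Bd ∪ U)
      have h4 := cnt_col hP.ec hz0 (Fc2 G X P t v)
      have h5 := cnt_col hP.ec hz0 (X.ne z v)
      have h6 := cnt_load hC hP hblt w1 w3 w4
      have h7 := card_Fc2 (t := t) hC.dec hC.hp hC.sup hv0 hvV
      have h8 := (hC.hp.ne2 z hzS v).2
      have h9 : (((nb G z).filter (fun x => x ∉ P.V0 ∧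
          (x ∈ X.Gd z false ∨ x ∈ X.Gd z true) ∧ alc P A x (t z v) ∧
            alc P A v (t z x))).card : ℝ) ≤
          ((Ss ∪ Sp2 P X c ∪ Bd ∪ U).card : ℝ) +
          (((univ.filter (fun y => y ∉ P.V0 ∧ t z v ∈ Fc2 G X P t y)).card : ℝ) +
          (((Fc2 G X P t v).card : ℝ) + 2)) := by
        exact_mod_cast h2.trans (by omega)
      linarith
    obtain ⟨j, hj⟩ : ∃ j, x ∈ X.Gd z j := by
      rcases hxG with h | h
      · exact ⟨_, h⟩
      · exact ⟨_, h⟩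
    have hx4 := hC.hp.gd4 z hzS j x hj
    refine ⟨v, x, hv, hx, hvn, hgad x hx0 hxG, hx0, hx4.1, hvE, hxE, hxF, hxF', a2, a1,
      fun _ => ⟨hxne, ?_⟩⟩
    rw [hx4.2.2.2]
    exact notMem_empty _

end Pool.Agent.Work.MP_db9399_da.helper45
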