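import Mathlib

/-!
# Block LBA, arithmetic of the positions inside a node

`m` is the index of a vertex in its node (sorted), the node has `N` vertices. Chunks of `p * R`
consecutive vertices are cut into `p` blocks `{(k + s b, b) : b < R}`, the rest into blocks of
`R` consecutive vertices.
-/

set_option autoImplicit false

namespace Pool.Agent.Work.MP_db9399_da.helper45

open Finset

variable {p : ℕ} [hpp : Fact p.Prime]

/-- the key of the block inside a chunk -/
def kap (p R : ℕ) (s : ZMod p) (m : ℕ) : ZMod p :=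
  ((m % (p * R) / R : ℕ) : ZMod p) - s * ((m % R : ℕ) : ZMod p)

/-- the name of the block -/
def code (p N R : ℕ) (s : ℕ → ZMod p) (m : ℕ) : ℕ × ZMod p :=
  if m / (p * R) < N / (p * R) then (m / (p * R), kap p R (s (m / (p * R))) m)
  else (N + m / R, 0)

/-- the last, incomplete block -/
def fx (N R m : ℕ) : Prop := N / R ≤ m / R

omit hpp in
lemma mod_div_lt {R m : ℕ} (hp : 0 < p) (hR : 0 < R) : m % (p * R) / R < p := by
  rw [Nat.div_lt_iff_lt_mul hR]
  exact Nat.mod_lt _ (by positivity)

omit hpp in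
/-- `m` is determined by its chunk, row and position -/
lemma dec (p R m : ℕ) :
    m = p * R * (m / (p * R)) + (R * (m % (p * R) / R) + m % R) := by
  have h1 := Nat.div_add_mod m (p * R)
  have h2 := Nat.div_add_mod (m % (p * R)) R
  have h3 : m % (p * R) % R = m % R := Nat.mod_mod_of_dvd m (Dvd.intro_left p rfl)
  rw [h3] at h2
  omega

omit hpp in
lemma dec' {R k a b : ℕ} (hp : 0 < p) (hR : 0 < R) (ha : a < p) (hb : b < R) :
    (p * R * k + (R * a + b)) / (p * R) = k ∧
    (p * R * k + (R * a + b)) % (p * R) / R = a ∧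
    (p * R * k + (R * a + b)) % R = b := by
  have h1 : R * a + b < p * R := by
    have : R * (a + 1) ≤ R * p := Nat.mul_le_mul_left R ha
    nlinarith
  refine ⟨?_, ?_, ?_⟩
  · rw [Nat.mul_add_div (by positivity), Nat.div_eq_of_lt h1, add_zero]
  · rw [Nat.mul_add_mod, Nat.mod_eq_of_lt h1, Nat.mul_add_div hR, Nat.div_eq_of_lt hb, add_zero]
  · have h2 : p * R * k + (R * a + b) = R * (p * k + a) + b := by ring
    rw [h2, Nat.mul_add_mod, Nat.mod_eq_of_lt hb]

lemma cast_inj {a a' : ℕ} (ha : a < p) (ha' : a' < p)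
    (h : (a : ZMod p) = (a' : ZMod p)) : a = a' := by
  have := (ZMod.natCast_eq_natCast_iff a a' p).1 h
  exact Nat.ModEq.eq_of_lt_of_lt this ha ha'

lemma code_inj {N R : ℕ} (hR : 0 < R) (s : ℕ → ZMod p) {m m' : ℕ} (hm : m < N) (hm' : m' < N)
    (h : code p N R s m = code p N R s m') (hp : m % R = m' % R) : m = m' := by
  have hle : ∀ x, x < N → x / (p * R) < N := fun x hx => (Nat.div_le_self _ _).trans_lt hx
  unfold code at h
  split_ifs at h with h1 h2 h2
  · obtain ⟨h3, h4⟩ := Prod.mk.inj h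
    unfold kap at h4
    rw [h3, hp] at h4
    have h5 := cast_inj (mod_div_lt hpp.out.pos hR) (mod_div_lt hpp.out.pos hR) (sub_left_inj.1 h4)
    rw [dec p R m, dec p R m', h3, hp, h5]
  · obtain ⟨h3, -⟩ := Prod.mk.inj h
    have := hle m hm
    have h4 := Nat.zero_le (m' / R)
    omega
  · obtain ⟨h3, -⟩ := Prod.mk.inj h
    have := hle m' hm'
    have h4 := Nat.zero_le (m / R)
    omega
  · obtain ⟨h3, -⟩ := Prod.mk.inj h
    have h4 : m / R = m' / R := by omega
    rw [← Nat.div_add_mod m R, ← Nat.div_add_mod m' R, h4, hp]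

omit hpp in
lemma div_comm' (p R m : ℕ) : m / (p * R) = m / R / p := by
  rw [Nat.div_div_eq_div_mul, mul_comm]

lemma chunk_not_fx {N R m : ℕ} (h : m / (p * R) < N / (p * R)) :
    ¬ fx N R m := by
  intro h2
  unfold fx at h2
  rw [div_comm', div_comm'] at h
  have := Nat.div_le_div_right (c := p) h2
  omega

lemma code_full {N R : ℕ} (hR : 0 < R) (s : ℕ → ZMod p) {m : ℕ}
    (hf : ¬ fx N R m) (i : ℕ) (hi : i < R) :
    ∃ m' < N, code p N R s m' = code p N R s m ∧ m' % R = i := by
  by_cases h : m / (p * R) < N / (p * R)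
  · set k := m / (p * R) with hk
    set a' := (kap p R (s k) m + s k * (i : ZMod p)).val with ha'
    have ha : a' < p := ZMod.val_lt _
    obtain ⟨h1, h2, h3⟩ := dec' (k := k) hpp.out.pos hR ha hi
    refine ⟨p * R * k + (R * a' + i), ?_, ?_, h3⟩
    · by_contra hcon
      push Not at hcon
      have := Nat.div_le_div_right (c := p * R) hcon
      rw [h1] at this
      omega
    · have h4 : code p N R s m = (k, kap p R (s k) m) := by
        unfold code
        rw [← hk, if_pos h]
      have h5 : code p N R s (p * R * k + (R * a' + i)) = (k, kap p R (s k) m) := by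
        unfold code
        rw [h1, if_pos h]
        congr 1
        show (((p * R * k + (R * a' + i)) % (p * R) / R : ℕ) : ZMod p) - s k *
          (((p * R * k + (R * a' + i)) % R : ℕ) : ZMod p) = kap p R (s k) m
        rw [h2, h3, ha', ZMod.natCast_val, ZMod.cast_id]
        ring
      rw [h4, h5]
  · unfold fx at hf
    push Not at hf
    have h1 : (R * (m / R) + i) / R = m / R := by
      rw [Nat.mul_add_div hR, Nat.div_eq_of_lt hi, add_zero]
    refine ⟨R * (m / R) + i, ?_, ?_, ?_⟩
    · have h2 : R * (m / R + 1) ≤ R * (N / R) := Nat.mul_le_mul_left R hf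
      have h3 := Nat.mul_div_le N R
      rw [mul_add, mul_one] at h2
      omega
    · unfold code
      rw [div_comm' p R (R * (m / R) + i), h1, ← div_comm', if_neg h, if_neg h]
    · rw [Nat.mul_add_mod, Nat.mod_eq_of_lt hi]

lemma code_fx {N R : ℕ} (s : ℕ → ZMod p) {m m' : ℕ} (hm : m < N) (hm' : m' < N)
    (h : code p N R s m = code p N R s m') : fx N R m ↔ fx N R m' := by
  have hle : ∀ x, x < N → x / (p * R) < N := fun x hx => (Nat.div_le_self _ _).trans_lt hx
  by_cases h1 : m / (p * R) < N / (p * R)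
  · by_cases h2 : m' / (p * R) < N / (p * R)
    · exact ⟨fun h3 => absurd h3 (chunk_not_fx h1), fun h3 => absurd h3 (chunk_not_fx h2)⟩
    · unfold code at h
      rw [if_pos h1, if_neg h2] at h
      obtain ⟨h3, -⟩ := Prod.mk.inj h
      have := hle m hm
      have h4 := Nat.zero_le (m' / R)
      omega
  · by_cases h2 : m' / (p * R) < N / (p * R)
    · unfold code at h
      rw [if_neg h1, if_pos h2] at h
      obtain ⟨h3, -⟩ := Prod.mk.inj h
      have := hle m' hm'
      have h4 := Nat.zero_le (m / R)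
      omega
    · unfold code at h
      rw [if_neg h1, if_neg h2] at h
      obtain ⟨h3, -⟩ := Prod.mk.inj h
      have h4 : m / R = m' / R := by omega
      unfold fx
      rw [h4]

lemma code_cases {N R : ℕ} (s : ℕ → ZMod p) {m m' : ℕ} (hm : m < N) (hm' : m' < N)
    (h : code p N R s m = code p N R s m') :
    (m / (p * R) < N / (p * R) ∧ m' / (p * R) = m / (p * R) ∧
      kap p R (s (m / (p * R))) m = kap p R (s (m / (p * R))) m') ∨
    (N / (p * R) ≤ m / (p * R) ∧ N / (p * R) ≤ m' / (p * R) ∧ m / R = m' / R) := by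
  have hle : ∀ x, x < N → x / (p * R) < N := fun x hx => (Nat.div_le_self _ _).trans_lt hx
  unfold code at h
  split_ifs at h with h1 h2 h2
  · obtain ⟨h3, h4⟩ := Prod.mk.inj h
    left
    refine ⟨h1, h3.symm, ?_⟩
    rw [← h3] at h4
    exact h4
  · obtain ⟨h3, -⟩ := Prod.mk.inj h
    have := hle m hm
    have h4 := Nat.zero_le (m' / R)
    omega
  · obtain ⟨h3, -⟩ := Prod.mk.inj h
    have := hle m' hm'
    have h4 := Nat.zero_le (m / R)
    omega
  · obtain ⟨h3, -⟩ := Prod.mk.inj h
    right
    exact ⟨by omega, by omega, by omega⟩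

lemma fx_eq {N R m : ℕ} (hm : m < N) (h : fx N R m) : m / R = N / R :=
  le_antisymm (Nat.div_le_div_right hm.le) h

lemma fx_chunk {N R m : ℕ} (h : fx N R m) :
    ¬ m / (p * R) < N / (p * R) := fun h2 => chunk_not_fx h2 h

lemma code_fx1 {N R : ℕ} (s : ℕ → ZMod p) {m m' : ℕ} (hm : m < N) (hm' : m' < N)
    (h : fx N R m) (h' : fx N R m') : code p N R s m = code p N R s m' := by
  unfold code
  rw [if_neg (fx_chunk h), if_neg (fx_chunk h'), fx_eq hm h, fx_eq hm' h']

lemma code_fxp {N R : ℕ} (hR : 0 < R) (s : ℕ → ZMod p) {m : ℕ} (hm : m < N)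
    (h : fx N R m) (i : ℕ) (hi : i < m % R) :
    ∃ m' < N, code p N R s m' = code p N R s m ∧ m' % R = i := by
  have hiR : i < R := hi.trans (Nat.mod_lt _ hR)
  have h1 : (R * (m / R) + i) / R = m / R := by
    rw [Nat.mul_add_div hR, Nat.div_eq_of_lt hiR, add_zero]
  refine ⟨R * (m / R) + i, ?_, ?_, ?_⟩
  · have := Nat.div_add_mod m R
    omega
  · unfold code
    rw [div_comm' p R (R * (m / R) + i), h1, ← div_comm', if_neg (fx_chunk h),
      if_neg (fx_chunk h)]
  · rw [Nat.mul_add_mod, Nat.mod_eq_of_lt hiR]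

lemma code_fxs {N R : ℕ} (hR : 0 < R) (s : ℕ → ZMod p) {m : ℕ} (hm : m < N)
    (h : fx N R m) :
    ∃ i < R, ∀ m' < N, code p N R s m' = code p N R s m → m' % R ≠ i := by
  refine ⟨N % R, Nat.mod_lt _ hR, fun m' hm' hc hcon => ?_⟩
  have h1 : fx N R m' := (code_fx s hm' hm hc).2 h
  have h2 := fx_eq hm' h1
  have h3 := Nat.div_add_mod m' R
  have h4 := Nat.div_add_mod N R
  rw [h2, hcon] at h3
  omega

/-- two vertices of the same chunk are in the same block for at most one `s` -/
lemma kap_unique {R : ℕ} (hR : 0 < R) (hR6 : R ≤ p) {m m' : ℕ} (hne : m ≠ m')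
    (hk : m / (p * R) = m' / (p * R)) {s s' : ZMod p} (h : kap p R s m = kap p R s m')
    (h' : kap p R s' m = kap p R s' m') : s = s' := by
  unfold kap at h h'
  set A : ZMod p := ((m % (p * R) / R : ℕ) : ZMod p) with hA
  set A' : ZMod p := ((m' % (p * R) / R : ℕ) : ZMod p) with hA'
  set B : ZMod p := ((m % R : ℕ) : ZMod p) with hB
  set B' : ZMod p := ((m' % R : ℕ) : ZMod p) with hB'
  have h1 : (s - s') * (B - B') = 0 := by linear_combination h' - h
  rcases mul_eq_zero.1 h1 with h2 | h2
  · exact sub_eq_zero.1 h2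
  · exfalso
    have h3 : B = B' := sub_eq_zero.1 h2
    have h4 : A = A' := by rw [h3] at h; exact sub_left_inj.1 h
    have hb : m % R < p := lt_of_lt_of_le (Nat.mod_lt m hR) (by omega)
    have hb' : m' % R < p := lt_of_lt_of_le (Nat.mod_lt m' hR) (by omega)
    have h5 := cast_inj hb hb' h3
    have h6 := cast_inj (mod_div_lt hpp.out.pos hR) (mod_div_lt hpp.out.pos hR) h4
    apply hne
    rw [dec p R m, dec p R m', hk, h5, h6]

end Pool.Agent.Work.MP_db9399_da.helper45
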