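import Pool.Agent.Work.MP_db9399_da.Parts
import Pool.Agent.Work.MP_db9399_da_helper45.Code

/-!
# Block LBA: the block model exists
-/

set_option autoImplicit false

namespace Pool.Agent.Work.MP_db9399_da.helper45

open Finset Classical
open Pool.Agent.Work.MP_db9399_all (nb pr)

universe u

/-- sorted index inside the node -/
lemma exists_rank {V : Type u} [Fintype V] {J : ℕ} (nd : V → Fin J) (w : V → ℝ) :
    ∃ ρ : V → ℕ, (∀ v, ρ v < (nodeS nd (nd v)).card) ∧
      (∀ v v', nd v = nd v' → ρ v = ρ v' → v = v') ∧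
      (∀ v v', nd v = nd v' → ρ v < ρ v' → w v ≤ w v') ∧
      (∀ j, ∀ m < (nodeS nd j).card, ∃ v, nd v = j ∧ ρ v = m) := by
  set e := Fintype.equivFin V
  set lt' : V → V → Prop := fun a b => w a < w b ∨ (w a = w b ∧ e a < e b) with hlt
  have irr : ∀ a, ¬ lt' a a := by
    intro a h
    rcases h with h | h
    · exact lt_irrefl _ h
    · exact lt_irrefl _ h.2
  have trn : ∀ a b c, lt' a b → lt' b c → lt' a c := by
    rintro a b c (h1 | ⟨h1, h1'⟩) (h2 | ⟨h2, h2'⟩)
    · exact Or.inl (h1.trans h2)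
    · exact Or.inl (h2 ▸ h1)
    · exact Or.inl (h1 ▸ h2)
    · exact Or.inr ⟨h1.trans h2, h1'.trans h2'⟩
  have tot : ∀ a b, a ≠ b → lt' a b ∨ lt' b a := by
    intro a b hab
    rcases lt_trichotomy (w a) (w b) with h | h | h
    · exact Or.inl (Or.inl h)
    · rcases lt_trichotomy (e a) (e b) with h' | h' | h'
      · exact Or.inl (Or.inr ⟨h, h'⟩)
      · exact absurd (e.injective h') hab
      · exact Or.inr (Or.inr ⟨h.symm, h'⟩)
    · exact Or.inr (Or.inl h)
  have hmem : ∀ v j, v ∈ nodeS nd j ↔ nd v = j := by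
    intro v j
    unfold nodeS
    rw [mem_filter]
    exact ⟨fun h => h.2, fun h => ⟨mem_univ _, h⟩⟩
  set ρ : V → ℕ := fun v => ((nodeS nd (nd v)).filter (fun u => lt' u v)).card with hρ
  have mono : ∀ a b, nd a = nd b → lt' a b → ρ a < ρ b := by
    intro a b hn h
    apply card_lt_card
    rw [ssubset_iff_of_subset]
    · exact ⟨a, mem_filter.2 ⟨(hmem _ _).2 hn, h⟩, fun h2 => irr a (mem_filter.1 h2).2⟩
    · intro x hx
      rw [mem_filter, hmem] at hx ⊢
      exact ⟨hx.1.trans hn, trn _ _ _ hx.2 h⟩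
  have h1 : ∀ v, ρ v < (nodeS nd (nd v)).card := by
    intro v
    apply card_lt_card
    rw [ssubset_iff_of_subset (filter_subset _ _)]
    exact ⟨v, (hmem _ _).2 rfl, fun h2 => irr v (mem_filter.1 h2).2⟩
  have h2 : ∀ v v', nd v = nd v' → ρ v = ρ v' → v = v' := by
    intro v v' hn h
    by_contra hne
    rcases tot v v' hne with h3 | h3
    · exact absurd h (mono v v' hn h3).ne
    · exact absurd h (mono v' v hn.symm h3).ne'
  refine ⟨ρ, h1, h2, ?_, ?_⟩
  · intro v v' hn h
    have hne : v ≠ v' := by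
      rintro rfl
      exact lt_irrefl _ h
    rcases tot v v' hne with h3 | h3
    · rcases h3 with h3 | h3
      · exact h3.le
      · exact h3.1.le
    · exact absurd (mono v' v hn.symm h3) (by omega)
  · intro j m hm
    have himg : (nodeS nd j).image ρ = range (nodeS nd j).card := by
      apply eq_of_subset_of_card_le
      · intro x hx
        obtain ⟨v, hv, rfl⟩ := mem_image.1 hx
        rw [hmem] at hv
        rw [mem_range, ← hv]
        exact h1 v
      · rw [card_range, card_image_of_injOn]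
        intro a ha b hb hab
        have ha' := (hmem _ _).1 (mem_coe.1 ha)
        have hb' := (hmem _ _).1 (mem_coe.1 hb)
        exact h2 a b (ha'.trans hb'.symm) hab
    have h3 : m ∈ (nodeS nd j).image ρ := by
      rw [himg, mem_range]
      exact hm
    obtain ⟨v, hv, rfl⟩ := mem_image.1 h3
    exact ⟨v, (hmem _ _).1 hv, rfl⟩

/-- a representative for every fibre -/
lemma exists_rep {V : Type u} {A : Type*} (nm : V → A) :
    ∃ blk : V → V, ∀ v v', blk v = blk v' ↔ nm v = nm v' := by
  have hex : ∀ v, ∃ u, nm u = nm v := fun v => ⟨v, rfl⟩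
  refine ⟨fun v => (hex v).choose, fun v v' => ⟨fun h => ?_, fun h => ?_⟩⟩
  · have h1 := (hex v).choose_spec
    have h2 := (hex v').choose_spec
    simp only at h
    rw [← h1, ← h2, h]
  · have h1 : (fun u => nm u = nm v) = (fun u => nm u = nm v') := by rw [h]
    have h2 : ∀ (P Q : V → Prop) (hP : ∃ u, P u) (hQ : ∃ u, Q u), P = Q →
        hP.choose = hQ.choose := by
      intro P Q hP hQ hPQ
      subst hPQ
      rfl
    exact h2 _ _ _ _ h1

/-- choice of the slope of a chunk -/
lemma exists_slope {p : ℕ} [hpp : Fact p.Prime] {V : Type u} (P : Finset (V × V)) (ρ : V → ℕ) (R : ℕ) (hR : 0 < R)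
    (hR6 : R ≤ p) (hP : ∀ q ∈ P, ρ q.1 ≠ ρ q.2 ∧ ρ q.1 / (p * R) = ρ q.2 / (p * R)) :
    ∃ s : ZMod p,
      p * (P.filter (fun q => kap p R s (ρ q.1) = kap p R s (ρ q.2))).card ≤ P.card := by
  by_contra hcon
  push Not at hcon
  have h1 : ∑ s : ZMod p, P.card <
      ∑ s : ZMod p, p * (P.filter (fun q => kap p R s (ρ q.1) = kap p R s (ρ q.2))).card :=
    sum_lt_sum_of_nonempty univ_nonempty fun s _ => hcon s
  rw [sum_const, card_univ, ZMod.card, smul_eq_mul, ← mul_sum] at h1
  have h2 : ∑ s : ZMod p, (P.filter (fun q => kap p R s (ρ q.1) = kap p R s (ρ q.2))).card ≤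
      P.card := by
    have h3 : ∀ s : ZMod p, (P.filter (fun q => kap p R s (ρ q.1) = kap p R s (ρ q.2))).card =
        ∑ q ∈ P, if kap p R s (ρ q.1) = kap p R s (ρ q.2) then 1 else 0 := fun s => by
      rw [card_filter]
    rw [sum_congr rfl fun s _ => h3 s, sum_comm, card_eq_sum_ones]
    apply sum_le_sum
    intro q hq
    obtain ⟨h4, h5⟩ := hP q hq
    rw [← card_filter, card_le_one]
    intro a ha b hb
    rw [mem_filter] at ha hb
    exact kap_unique hR hR6 h4 h5 ha.2 hb.2
  exact absurd h1 (not_lt.2 (Nat.mul_le_mul_left p h2))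

section model
variable {V : Type u} [Fintype V] {J : ℕ}

/-- the part of `BM` about blocks and positions -/
structure BM0 (nd : V → Fin J) (r : Fin J → ℕ) (blk : V → V) (pos : V → ℕ) (Fx : V → Prop) :
    Prop where
  nb : ∀ v v', blk v = blk v' → nd v = nd v'
  pl : ∀ v, pos v < r (nd v)
  inj : ∀ v v', blk v = blk v' → pos v = pos v' → v = v'
  full : ∀ v, ¬ Fx v → ∀ i < r (nd v), ∃ v', blk v' = blk v ∧ pos v' = i
  fxb : ∀ v v', blk v = blk v' → (Fx v ↔ Fx v')
  fx1 : ∀ v v', Fx v → Fx v' → nd v = nd v' → blk v = blk v'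
  fxp : ∀ v, Fx v → ∀ i < pos v, ∃ v', blk v' = blk v ∧ pos v' = i
  fxs : ∀ v, Fx v → ∃ i < r (nd v), ∀ v', blk v' = blk v → pos v' ≠ i

lemma mem_nodeS (nd : V → Fin J) (v : V) (j : Fin J) : v ∈ nodeS nd j ↔ nd v = j := by
  unfold nodeS
  rw [mem_filter]
  exact ⟨fun h => h.2, fun h => ⟨mem_univ _, h⟩⟩

lemma mem_clS (nd : V → Fin J) (lab : V → ℕ) (v : V) (j : Fin J) (i : ℕ) :
    v ∈ clS nd lab j i ↔ nd v = j ∧ lab v = i := by
  unfold clS
  rw [mem_filter]
  exact ⟨fun h => h.2, fun h => ⟨mem_univ _, h⟩⟩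

omit [Fintype V] in
lemma lb_lt {nd : V → Fin J} {r : Fin J → ℕ} {blk : V → V} {pos : V → ℕ} {Fx : V → Prop}
    (hB : BM0 nd r blk pos Fx) (hr : ∀ j, 1 ≤ r j ∧ r j ≤ 6) (ω : V → Fin 60) (v : V) :
    lb nd r blk pos Fx ω v < r (nd v) := by
  unfold lb
  split_ifs
  · exact hB.pl v
  · exact Nat.mod_lt _ (hr _).1

omit [Fintype V] in
lemma lb_inj {nd : V → Fin J} {r : Fin J → ℕ} {blk : V → V} {pos : V → ℕ} {Fx : V → Prop}
    (hB : BM0 nd r blk pos Fx) (ω : V → Fin 60) (v v' : V)
    (h : blk v = blk v') (h' : lb nd r blk pos Fx ω v = lb nd r blk pos Fx ω v') : v = v' := by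
  apply hB.inj v v' h
  have hn := hB.nb v v' h
  have hf := hB.fxb v v' h
  unfold lb at h'
  by_cases hF : Fx v
  · rw [if_pos hF, if_pos (hf.1 hF)] at h'
    exact h'
  · rw [if_neg hF, if_neg (fun h2 => hF (hf.2 h2)), h, hn] at h'
    have h1 : pos v ≡ pos v' [MOD r (nd v')] := Nat.ModEq.add_right_cancel' _ h'
    have h2 := hB.pl v
    rw [hn] at h2
    exact Nat.ModEq.eq_of_lt_of_lt h1 h2 (hB.pl v')

/-- telescoping over the chunks -/
lemma tele (S S' : ℕ → ℝ) (K : ℕ) (B : ℝ) (h0 : ∀ k, 0 ≤ S' k) (h1 : ∀ k, S k ≤ B)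
    (hB : 0 ≤ B) (h2 : ∀ k, k + 1 < K → S k ≤ S' (k + 1)) :
    ∑ k ∈ range K, S k - ∑ k ∈ range K, S' k ≤ B := by
  rcases Nat.eq_zero_or_pos K with rfl | hK
  · simpa using hB
  · obtain ⟨n, rfl⟩ : ∃ n, K = n + 1 := ⟨K - 1, by omega⟩
    have key : ∀ m, m < n + 1 → ∑ k ∈ range (m + 1), S k - ∑ k ∈ range (m + 1), S' k ≤ S m := by
      intro m
      induction m with
      | zero =>
        intro _
        simp only [zero_add, range_one, sum_singleton]
        linarith [h0 0]
      | succ m ih =>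
        intro hm
        rw [sum_range_succ S (m + 1), sum_range_succ S' (m + 1)]
        have h3 := ih (by omega)
        have h4 := h2 m hm
        linarith
    exact (key n (by omega)).trans (h1 n)

theorem model (p : ℕ) [hpp : Fact p.Prime] (hp6 : 6 ≤ p) (nd : V → Fin J) (r : Fin J → ℕ)
    (T : SimpleGraph V) (w : V → ℝ) (W : ℝ) (hW : 0 ≤ W) (hr : ∀ j, 1 ≤ r j ∧ r j ≤ 6)
    (hw : ∀ v, 0 ≤ w v ∧ w v ≤ W) :
    ∃ (blk : V → V) (pos : V → ℕ) (Fx : V → Prop), BM0 nd r blk pos Fx ∧
      (∀ j, p * ((univ : Finset (V × V)).filter (fun q => nd q.1 = j ∧ nd q.2 = j ∧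
        blk q.1 = blk q.2 ∧ T.Adj q.1 q.2)).card ≤
          eb T (nodeS nd j) (nodeS nd j) + p * ((p * 6) * (p * 6))) ∧
      ∀ (ω : V → Fin 60) j, ∀ i < r j, ∀ i' < r j,
        ∑ v ∈ clS nd (lb nd r blk pos Fx ω) j i, w v -
          ∑ v ∈ clS nd (lb nd r blk pos Fx ω) j i', w v ≤ 2 * (p * W) := by
  have hp0 : 0 < p := hpp.out.pos
  obtain ⟨ρ, hρ1, hρ2, hρ3, hρ4⟩ := exists_rank nd w
  set N : Fin J → ℕ := fun j => (nodeS nd j).card with hN
  set P : Fin J → ℕ → Finset (V × V) := fun j k => univ.filter (fun q => nd q.1 = j ∧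
    nd q.2 = j ∧ ρ q.1 / (p * r j) = k ∧ ρ q.2 / (p * r j) = k ∧ T.Adj q.1 q.2) with hP
  have hPm : ∀ j k q, q ∈ P j k ↔ (nd q.1 = j ∧
      nd q.2 = j ∧ ρ q.1 / (p * r j) = k ∧ ρ q.2 / (p * r j) = k ∧ T.Adj q.1 q.2) := by
    intro j k q
    simp only [hP, mem_filter]
    exact ⟨fun h => h.2, fun h => ⟨mem_univ _, h⟩⟩
  have hsl : ∀ j k, ∃ s : ZMod p,
      p * ((P j k).filter (fun q => kap p (r j) s (ρ q.1) = kap p (r j) s (ρ q.2))).card ≤
        (P j k).card := by
    intro j k
    apply exists_slope (P j k) ρ (r j) (hr j).1 ((hr j).2.trans hp6)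
    intro q hq
    obtain ⟨h1, h2, h3, h4, h5⟩ := (hPm j k q).1 hq
    refine ⟨fun h => h5.ne (hρ2 _ _ (h1.trans h2.symm) h), h3.trans h4.symm⟩
  choose s hs using hsl
  obtain ⟨blk, hblk⟩ := exists_rep
    (fun v => (nd v, code p (N (nd v)) (r (nd v)) (s (nd v)) (ρ v)))
  have hb1 : ∀ v v', blk v = blk v' → nd v = nd v' := by
    intro v v' h
    exact (Prod.mk.inj ((hblk v v').1 h)).1
  have hb2 : ∀ v v' j, nd v = j → nd v' = j → blk v = blk v' →
      code p (N j) (r j) (s j) (ρ v) = code p (N j) (r j) (s j) (ρ v') := by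
    intro v v' j hv hv' h
    have h1 := (Prod.mk.inj ((hblk v v').1 h)).2
    rw [hv, hv'] at h1
    exact h1
  have hb3 : ∀ v v' j, nd v = j → nd v' = j →
      code p (N j) (r j) (s j) (ρ v) = code p (N j) (r j) (s j) (ρ v') → blk v = blk v' := by
    intro v v' j hv hv' h
    rw [hblk, hv, hv', h]
  set pos : V → ℕ := fun v => ρ v % r (nd v) with hpos
  set Fx : V → Prop := fun v => fx (N (nd v)) (r (nd v)) (ρ v) with hFx
  have hρN : ∀ v j, nd v = j → ρ v < N j := by
    intro v j h
    rw [← h]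
    exact hρ1 v
  have hBM : BM0 nd r blk pos Fx := by
    refine ⟨hb1, fun v => Nat.mod_lt _ (hr _).1, ?_, ?_, ?_, ?_, ?_, ?_⟩
    · intro v v' h h'
      have hn := hb1 v v' h
      have hc := hb2 v v' _ hn rfl h
      simp only [hpos, hn] at h'
      exact hρ2 v v' hn (code_inj (hr _).1 _ (hρN v _ hn) (hρN v' _ rfl) hc h')
    · intro v hf i hi
      obtain ⟨m', hm', hc, hi'⟩ := code_full (hr (nd v)).1 (s (nd v)) hf i hi
      obtain ⟨v', hv', rfl⟩ := hρ4 (nd v) m' hm'
      refine ⟨v', hb3 v' v _ hv' rfl hc, ?_⟩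
      simp only [hpos, hv']
      exact hi'
    · intro v v' h
      have hn := hb1 v v' h
      have hc := hb2 v v' _ hn rfl h
      have h1 := code_fx _ (hρN v _ hn) (hρN v' _ rfl) hc
      simp only [hFx, hn]
      exact h1
    · intro v v' hf hf' hn
      simp only [hFx] at hf hf'
      rw [hn] at hf
      exact hb3 v v' _ hn rfl (code_fx1 _ (hρN v _ hn) (hρN v' _ rfl) hf hf')
    · intro v hf i hi
      obtain ⟨m', hm', hc, hi'⟩ := code_fxp (hr (nd v)).1 (s (nd v)) (hρN v _ rfl) hf i hi
      obtain ⟨v', hv', rfl⟩ := hρ4 (nd v) m' hm'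
      refine ⟨v', hb3 v' v _ hv' rfl hc, ?_⟩
      simp only [hpos, hv']
      exact hi'
    · intro v hf
      obtain ⟨i, hi, h1⟩ := code_fxs (hr (nd v)).1 (s (nd v)) (hρN v _ rfl) hf
      refine ⟨i, hi, fun v' h2 => ?_⟩
      have hn := hb1 v' v h2
      have h3 := h1 (ρ v') (hρN v' _ hn) (hb2 v' v _ hn rfl h2)
      simp only [hpos, hn]
      exact h3
  refine ⟨blk, pos, Fx, hBM, ?_, ?_⟩
  · -- edges inside blocks
    intro j
    set K := N j / (p * r j) with hK
    set Q : ℕ → Finset (V × V) := fun k =>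
      (P j k).filter (fun q => kap p (r j) (s j k) (ρ q.1) = kap p (r j) (s j k) (ρ q.2)) with hQ
    set Rest : Finset V := (nodeS nd j).filter (fun v => K ≤ ρ v / (p * r j)) with hRest
    have hRc : Rest.card ≤ p * 6 := by
      have h1 : Rest.card ≤ (Ico (p * r j * K) (p * r j * K + p * r j)).card := by
        refine card_le_card_of_injOn ρ ?_ ?_
        · intro v hv
          have hv' := mem_filter.1 (mem_coe.1 hv)
          have hn := (mem_nodeS nd v j).1 hv'.1
          have h2 := hρN v j hn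
          rw [coe_Ico, Set.mem_Ico]
          constructor
          · exact (Nat.mul_le_mul_left _ hv'.2).trans (Nat.mul_div_le _ _)
          · have h3 := Nat.lt_mul_div_succ (N j) (by have := (hr j).1; positivity : 0 < p * r j)
            rw [← hK, mul_add, mul_one] at h3
            exact h2.trans h3
        · intro v hv v' hv' h
          have h1 := (mem_nodeS nd v j).1 (mem_filter.1 (mem_coe.1 hv)).1
          have h2 := (mem_nodeS nd v' j).1 (mem_filter.1 (mem_coe.1 hv')).1
          exact hρ2 v v' (h1.trans h2.symm) h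
      rw [Nat.card_Ico] at h1
      have h2 : p * r j ≤ p * 6 := Nat.mul_le_mul_left p (hr j).2
      omega
    have hsub : (univ : Finset (V × V)).filter (fun q => nd q.1 = j ∧ nd q.2 = j ∧
        blk q.1 = blk q.2 ∧ T.Adj q.1 q.2) ⊆ (range K).biUnion Q ∪ Rest ×ˢ Rest := by
      intro q hq
      obtain ⟨h1, h2, h3, h4⟩ := (mem_filter.1 hq).2
      rw [mem_union]
      rcases code_cases _ (hρN q.1 j h1) (hρN q.2 j h2) (hb2 q.1 q.2 j h1 h2 h3) with
        ⟨h5, h6, h7⟩ | ⟨h5, h6, h7⟩
      · left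
        rw [mem_biUnion]
        refine ⟨ρ q.1 / (p * r j), mem_range.2 h5, mem_filter.2 ⟨(hPm _ _ _).2
          ⟨h1, h2, rfl, h6, h4⟩, h7⟩⟩
      · right
        rw [mem_product]
        exact ⟨mem_filter.2 ⟨(mem_nodeS _ _ _).2 h1, h5⟩, mem_filter.2 ⟨(mem_nodeS _ _ _).2 h2, h6⟩⟩
    have hc1 := (card_le_card hsub).trans (card_union_le _ _)
    rw [card_product] at hc1
    have hc2 : ((range K).biUnion Q).card ≤ ∑ k ∈ range K, (Q k).card := card_biUnion_le
    have hc3 : Rest.card * Rest.card ≤ (p * 6) * (p * 6) := Nat.mul_le_mul hRc hRc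
    have hc4 : p * ∑ k ∈ range K, (Q k).card ≤ ∑ k ∈ range K, (P j k).card := by
      rw [mul_sum]
      exact sum_le_sum fun k _ => hs j k
    have hc5 : ∑ k ∈ range K, (P j k).card ≤ eb T (nodeS nd j) (nodeS nd j) := by
      rw [← card_biUnion]
      · -- count the pairs by the first vertex
        set PP := (range K).biUnion (P j) with hPP
        have hmaps : ∀ q ∈ PP, q.1 ∈ nodeS nd j := by
          intro q hq
          obtain ⟨k, _, hk⟩ := mem_biUnion.1 hq
          exact (mem_nodeS _ _ _).2 ((hPm _ _ _).1 hk).1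
        rw [card_eq_sum_card_fiberwise (f := Prod.fst) (t := nodeS nd j)
          (fun q hq => mem_coe.2 (hmaps q (mem_coe.1 hq)))]
        unfold eb
        apply sum_le_sum
        intro v _
        refine card_le_card_of_injOn Prod.snd ?_ ?_
        · intro q hq
          obtain ⟨h1, h2⟩ := mem_filter.1 (mem_coe.1 hq)
          obtain ⟨k, _, hk⟩ := mem_biUnion.1 h1
          obtain ⟨h3, h4, h5, h6, h7⟩ := (hPm _ _ _).1 hk
          rw [mem_coe, mem_inter]
          refine ⟨?_, (mem_nodeS _ _ _).2 h4⟩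
          unfold Pool.Agent.Work.MP_db9399_all.nb
          rw [mem_filter]
          exact ⟨mem_univ _, h2 ▸ h7⟩
        · intro q hq q' hq' h
          have h1 := (mem_filter.1 (mem_coe.1 hq)).2
          have h2 := (mem_filter.1 (mem_coe.1 hq')).2
          exact Prod.ext (h1.trans h2.symm) h
      · intro k _ k' _ hkk
        rw [Function.onFun, Finset.disjoint_left]
        intro q hq hq'
        exact hkk (((hPm _ _ _).1 hq).2.2.1.symm.trans ((hPm _ _ _).1 hq').2.2.1)
    calc p * ((univ : Finset (V × V)).filter (fun q => nd q.1 = j ∧ nd q.2 = j ∧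
        blk q.1 = blk q.2 ∧ T.Adj q.1 q.2)).card
        ≤ p * (∑ k ∈ range K, (Q k).card + (p * 6) * (p * 6)) :=
          Nat.mul_le_mul_left p (by omega)
      _ = p * ∑ k ∈ range K, (Q k).card + p * ((p * 6) * (p * 6)) := by ring
      _ ≤ _ := by omega
  · -- weights
    intro ω j i hi i' hi'
    set lab := lb nd r blk pos Fx ω with hlab
    set R := r j with hR
    set K := N j / (p * R) with hK
    have hR0 : 0 < R := (hr j).1
    have hc0 : 0 < p * R := by positivity
    set A : ℕ → ℕ → Finset V := fun i k => (clS nd lab j i).filter (fun v => ρ v / (p * R) = k)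
      with hA
    have hAm : ∀ i k v, v ∈ A i k ↔ nd v = j ∧ lab v = i ∧ ρ v / (p * R) = k := by
      intro i k v
      simp only [hA, mem_filter, mem_clS, and_assoc]
    -- at most `p` vertices
    have hA1 : ∀ i k, k ≤ K → (A i k).card ≤ p := by
      intro i k hk
      rcases lt_or_eq_of_le hk with hk | hk
      · have h1 : (A i k).card ≤ (univ : Finset (ZMod p)).card := by
          refine card_le_card_of_injOn (fun v => kap p R (s j k) (ρ v)) (fun _ _ => mem_coe.2 (mem_univ _)) ?_
          intro v hv v' hv' h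
          obtain ⟨a1, a2, a3⟩ := (hAm _ _ _).1 (mem_coe.1 hv)
          obtain ⟨b1, b2, b3⟩ := (hAm _ _ _).1 (mem_coe.1 hv')
          refine lb_inj hBM ω v v' (hb3 v v' j a1 b1 ?_) (a2.trans b2.symm)
          unfold code
          rw [← hR, a3, b3, if_pos hk, if_pos hk]
          simp only at h
          rw [h]
        rw [card_univ, ZMod.card] at h1
        exact h1
      · have h1 : (A i k).card ≤ (range p).card := by
          refine card_le_card_of_injOn (fun v => ρ v / R % p)
            (fun _ _ => mem_coe.2 (mem_range.2 (Nat.mod_lt _ hp0))) ?_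
          intro v hv v' hv' h
          obtain ⟨a1, a2, a3⟩ := (hAm _ _ _).1 (mem_coe.1 hv)
          obtain ⟨b1, b2, b3⟩ := (hAm _ _ _).1 (mem_coe.1 hv')
          refine lb_inj hBM ω v v' (hb3 v v' j a1 b1 ?_) (a2.trans b2.symm)
          have h2 : ρ v / R = ρ v' / R := by
            rw [← Nat.div_add_mod (ρ v / R) p, ← Nat.div_add_mod (ρ v' / R) p, ← div_comm',
              ← div_comm', a3, b3]
            simp only at h
            rw [h]
          unfold code
          rw [← hR, a3, b3, if_neg (by rw [hk]; exact lt_irrefl _),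
            if_neg (by rw [hk]; exact lt_irrefl _), h2]
        rw [card_range] at h1
        exact h1
    -- exactly `p` vertices
    have hA2 : ∀ k, k < K → ∀ i < R, (A i k).card = p := by
      intro k hk i hi
      set Ch : Finset V := univ.filter (fun v => nd v = j ∧ ρ v / (p * R) = k) with hCh
      have h1 : p * R ≤ Ch.card := by
        have h2 : (Ico (p * R * k) (p * R * k + p * R)).card ≤ (Ch.image ρ).card := by
          apply card_le_card
          intro m hm
          rw [mem_Ico] at hm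
          have h3 : m / (p * R) = k := by
            apply Nat.div_eq_of_lt_le
            · rw [mul_comm]; exact hm.1
            · rw [add_mul, one_mul, mul_comm k]; exact hm.2
          have h4 : m < N j := by
            by_contra hcon
            push Not at hcon
            have := Nat.div_le_div_right (c := p * R) hcon
            rw [h3] at this
            omega
          obtain ⟨v, hv, rfl⟩ := hρ4 j m h4
          exact mem_image_of_mem _ (mem_filter.2 ⟨mem_univ _, hv, h3⟩)
        rw [Nat.card_Ico] at h2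
        have h5 := card_image_le (s := Ch) (f := ρ)
        omega
      have h2 : Ch.card = ∑ i ∈ range R, (A i k).card := by
        rw [card_eq_sum_card_fiberwise (f := lab) (t := range R)]
        · apply sum_congr rfl
          intro i _
          congr 1
          ext v
          rw [mem_filter, hAm, mem_filter]
          constructor
          · rintro ⟨⟨_, h3, h4⟩, h5⟩
            exact ⟨h3, h5, h4⟩
          · rintro ⟨h3, h4, h5⟩
            exact ⟨⟨mem_univ _, h3, h5⟩, h4⟩
        · intro v hv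
          have h3 := (mem_filter.1 (mem_coe.1 hv)).2.1
          rw [mem_coe, mem_range, hR, ← h3]
          exact lb_lt hBM hr ω v
      have h3 : ∑ i ∈ (range R).erase i, (A i k).card ≤ (R - 1) * p := by
        refine (sum_le_card_nsmul _ _ p (fun i _ => hA1 i k hk.le)).trans ?_
        rw [card_erase_of_mem (mem_range.2 hi), card_range, smul_eq_mul]
      have h4 := add_sum_erase (range R) (fun i => (A i k).card) (mem_range.2 hi)
      have h5 : (R - 1) * p + p = p * R := by
        obtain ⟨R', hR'⟩ : ∃ R', R = R' + 1 := ⟨R - 1, by omega⟩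
        rw [hR']
        simp only [Nat.add_sub_cancel]
        ring
      have h6 := hA1 i k hk.le
      omega
    set S : ℕ → ℕ → ℝ := fun i k => ∑ v ∈ A i k, w v with hS
    have hS0 : ∀ i k, 0 ≤ S i k := fun i k => sum_nonneg fun v _ => (hw v).1
    have hS1 : ∀ i k, k ≤ K → S i k ≤ p * W := by
      intro i k hk
      calc S i k ≤ ∑ v ∈ A i k, W := sum_le_sum fun v _ => (hw v).2
        _ = (A i k).card * W := by rw [sum_const, nsmul_eq_mul]
        _ ≤ p * W := mul_le_mul_of_nonneg_right (by exact_mod_cast hA1 i k hk) hW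
    have hS2 : ∀ i < R, ∀ i' < R, ∀ k, k + 1 < K → S i k ≤ S i' (k + 1) := by
      intro i hi i' hi' k hk
      have h1 : ∑ v ∈ A i k, ∑ v' ∈ A i' (k + 1), w v ≤
          ∑ v ∈ A i k, ∑ v' ∈ A i' (k + 1), w v' := by
        apply sum_le_sum
        intro v hv
        apply sum_le_sum
        intro v' hv'
        obtain ⟨a1, a2, a3⟩ := (hAm _ _ _).1 hv
        obtain ⟨b1, b2, b3⟩ := (hAm _ _ _).1 hv'
        apply hρ3 v v' (a1.trans b1.symm)
        by_contra hcon
        push Not at hcon
        have := Nat.div_le_div_right (c := p * R) hcon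
        omega
      have h2 : ∑ v ∈ A i k, ∑ v' ∈ A i' (k + 1), w v = p * S i k := by
        simp only [sum_const, nsmul_eq_mul, hS, ← mul_sum]
        rw [hA2 (k + 1) hk i' hi']
      have h3 : ∑ v ∈ A i k, ∑ v' ∈ A i' (k + 1), w v' = p * S i' (k + 1) := by
        rw [sum_const, nsmul_eq_mul, hA2 k (by omega) i hi]
      rw [h2, h3] at h1
      have hp0' : (0 : ℝ) < p := by exact_mod_cast hp0
      exact le_of_mul_le_mul_left h1 hp0'
    have hsum : ∀ i, ∑ v ∈ clS nd lab j i, w v = ∑ k ∈ range K, S i k + S i K := by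
      intro i
      rw [← sum_range_succ, ← sum_fiberwise_of_maps_to (s := clS nd lab j i)
        (t := range (K + 1)) (g := fun v => ρ v / (p * R))]
      intro v hv
      rw [mem_range, Nat.lt_succ_iff]
      exact Nat.div_le_div_right (hρN v j ((mem_clS _ _ _ _ _).1 hv).1).le
    rw [hsum i, hsum i']
    have hpW : 0 ≤ (p : ℝ) * W := by positivity
    have h1 := tele (fun k => min (S i k) (p * W)) (S i') K (p * W) (hS0 i')
      (fun k => min_le_right _ _) hpW
      (fun k hk => (min_le_left _ _).trans (hS2 i hi i' hi' k hk))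
    have h2 : ∑ k ∈ range K, min (S i k) (p * W) = ∑ k ∈ range K, S i k := by
      apply sum_congr rfl
      intro k hk
      exact min_eq_left (hS1 i k (mem_range.1 hk).le)
    rw [h2] at h1
    have h3 := hS1 i K le_rfl
    have h4 := hS0 i' K
    linarith

end model

theorem stmt_LBA : Stmt_LBA.{u} := by
  intro V _ J nd r T w W hr hW hw
  have : Fact (Nat.Prime 100003) := ⟨by norm_num⟩
  obtain ⟨blk, pos, Fx, hB, h1, h2⟩ := model 100003 (by norm_num) nd r T w W hW hr hw
  refine ⟨blk, pos, Fx, hB.nb, hB.pl, hB.inj, hB.full, hB.fxb, hB.fx1, hB.fxp, hB.fxs, ?_, ?_⟩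
  · intro j
    have h3 : (100003 : ℝ) * (((univ : Finset (V × V)).filter (fun q => nd q.1 = j ∧ nd q.2 = j ∧
        blk q.1 = blk q.2 ∧ T.Adj q.1 q.2)).card : ℝ) ≤
          (eb T (nodeS nd j) (nodeS nd j) : ℝ) + 100003 * ((100003 * 6) * (100003 * 6)) := by
      exact_mod_cast h1 j
    have h4 : (0 : ℝ) ≤ (eb T (nodeS nd j) (nodeS nd j) : ℝ) := Nat.cast_nonneg _
    linarith
  · intro ω j i hi i' hi'
    have h3 := h2 ω j i hi i' hi'
    have h4 := h2 ω j i' hi' i hi
    rw [abs_le]
    push_cast at h3 h4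
    constructor <;> linarith

end Pool.Agent.Work.MP_db9399_da.helper45
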