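import Pool.Agent.Work.MP_db9399_da_helper45.LBA

/-!
# Block LBB: the class sizes in the block model, and probabilities
-/

set_option autoImplicit false

namespace Pool.Agent.Work.MP_db9399_da.helper45

open Finset Classical
open Pool.Agent.Work.MP_db9399_all (nb pr)

universe u

section prob
variable {Ω : Type u} [Fintype Ω]

lemma pr_nonneg (E : Ω → Prop) : 0 ≤ pr E := by
  unfold pr
  positivity

lemma pr_mono {E F : Ω → Prop} (h : ∀ ω, E ω → F ω) : pr E ≤ pr F := by
  unfold pr
  apply div_le_div_of_nonneg_right _ (Nat.cast_nonneg _)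
  exact_mod_cast card_le_card (monotone_filter_right _ (fun ω _ => h ω))

lemma pr_or (E F : Ω → Prop) : pr (fun ω => E ω ∨ F ω) ≤ pr E + pr F := by
  unfold pr
  rw [← add_div]
  apply div_le_div_of_nonneg_right _ (Nat.cast_nonneg _)
  refine (Nat.cast_le.2 ((card_le_card (t := univ.filter E ∪ univ.filter F) ?_).trans
    (card_union_le _ _))).trans (le_of_eq (Nat.cast_add _ _))
  intro ω hω
  simp only [mem_union, mem_filter, mem_univ, true_and] at hω ⊢
  exact hω

lemma pr_false {E : Ω → Prop} (h : ∀ ω, ¬ E ω) : pr E = 0 := by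
  unfold pr
  rw [filter_false_of_mem (fun ω _ => h ω)]
  simp

lemma pr_union {ι : Type*} (s : Finset ι) (E : ι → Ω → Prop) :
    pr (fun ω => ∃ a ∈ s, E a ω) ≤ ∑ a ∈ s, pr (E a) := by
  induction s using Finset.induction_on with
  | empty =>
    rw [sum_empty, pr_false]
    rintro ω ⟨a, h, -⟩
    exact absurd h (notMem_empty a)
  | insert a s ha ih =>
    rw [sum_insert ha]
    refine (pr_mono (F := fun ω => E a ω ∨ ∃ b ∈ s, E b ω) ?_).trans
      ((pr_or _ _).trans (add_le_add le_rfl ih))
    rintro ω ⟨b, hb, h⟩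
    rcases mem_insert.1 hb with rfl | hb
    · exact Or.inl h
    · exact Or.inr ⟨b, hb, h⟩

lemma exists_good [Nonempty Ω] (E : Ω → Prop) (h : pr E < 1) : ∃ ω, ¬ E ω := by
  by_contra hcon
  push Not at hcon
  unfold pr at h
  rw [filter_true_of_mem (fun ω _ => hcon ω), card_univ, div_self] at h
  · exact lt_irrefl _ h
  · exact_mod_cast Fintype.card_pos.ne'

lemma pr_markov (X : Ω → ℝ) (hX : ∀ ω, 0 ≤ X ω) (t : ℝ) :
    pr (fun ω => t < X ω) * t ≤ (∑ ω, X ω) / Fintype.card Ω := by
  unfold pr
  rw [div_mul_eq_mul_div]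
  apply div_le_div_of_nonneg_right _ (Nat.cast_nonneg _)
  calc ((univ.filter (fun ω => t < X ω)).card : ℝ) * t
      = ∑ ω ∈ univ.filter (fun ω => t < X ω), t := by rw [sum_const, nsmul_eq_mul]
    _ ≤ ∑ ω ∈ univ.filter (fun ω => t < X ω), X ω :=
        sum_le_sum fun ω hω => (mem_filter.1 hω).2.le
    _ ≤ ∑ ω, X ω := sum_le_sum_of_subset_of_nonneg (filter_subset _ _) fun ω _ _ => hX ω

lemma avg_ind (E : Ω → Prop) [DecidablePred E] (c : ℝ) :
    (∑ ω, if E ω then c else 0) / Fintype.card Ω = c * pr E := by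
  have h2 : @filter Ω E _ univ = @filter Ω E (fun a => Classical.propDecidable (E a)) univ := by
    ext x
    simp only [mem_filter]
  have h : ∑ ω, (if E ω then c else 0) =
      ((@filter Ω E (fun a => Classical.propDecidable (E a)) univ).card : ℝ) * c := by
    rw [← h2, ← sum_filter, sum_const, nsmul_eq_mul]
  unfold pr
  rw [h]
  ring

end prob

section siz
variable {V : Type u} [Fintype V] {J : ℕ}

lemma div_aux {r m s i : ℕ} (hs : s < r) (hi : i < r) :
    (r * m + s + (r - 1 - i)) / r = m + if i < s then 1 else 0 := by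
  rw [add_assoc, Nat.mul_add_div (by omega)]
  congr 1
  split_ifs with h
  · apply Nat.div_eq_of_lt_le
    · omega
    · omega
  · apply Nat.div_eq_of_lt
    omega

theorem siz_of_BM {nd : V → Fin J} {r : Fin J → ℕ} {blk : V → V} {pos : V → ℕ} {Fx : V → Prop}
    (hB : BM0 nd r blk pos Fx) (hr : ∀ j, 1 ≤ r j ∧ r j ≤ 6) (ω : V → Fin 60) (j : Fin J) (i : ℕ)
    (hi : i < r j) :
    (clS nd (lb nd r blk pos Fx ω) j i).card = ((nodeS nd j).card + (r j - 1 - i)) / r j := by
  set lab := lb nd r blk pos Fx ω with hlab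
  set NF : Finset V := (nodeS nd j).filter (fun v => ¬ Fx v) with hNF
  set F : Finset V := (nodeS nd j).filter (fun v => Fx v) with hF
  set B : Finset V := NF.image blk with hBl
  have hNFm : ∀ v, v ∈ NF ↔ nd v = j ∧ ¬ Fx v := by
    intro v
    rw [hNF, mem_filter, mem_nodeS]
  have hFm : ∀ v, v ∈ F ↔ nd v = j ∧ Fx v := by
    intro v
    rw [hF, mem_filter, mem_nodeS]
  -- nonfixed vertices of a class
  have h1 : ∀ i < r j, (NF.filter (fun v => lab v = i)).card = B.card := by
    intro i hi
    apply le_antisymm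
    · refine card_le_card_of_injOn blk ?_ ?_
      · intro v hv
        exact mem_coe.2 (mem_image_of_mem _ (mem_filter.1 (mem_coe.1 hv)).1)
      · intro v hv v' hv' h
        exact lb_inj hB ω v v' h ((mem_filter.1 (mem_coe.1 hv)).2.trans
          (mem_filter.1 (mem_coe.1 hv')).2.symm)
    · have hsub : B ⊆ (NF.filter (fun v => lab v = i)).image blk := by
        intro y hy
        obtain ⟨v0, hv0, rfl⟩ := mem_image.1 hy
        obtain ⟨h2, h3⟩ := (hNFm v0).1 hv0
        have hr0 : 0 < r j := (hr j).1
        -- the position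
        set c := (ω (blk v0) : ℕ) with hc
        obtain ⟨b, hb, hbc⟩ : ∃ b < r j, (b + c) % r j = i := by
          refine ⟨(i + (r j - c % r j)) % r j, Nat.mod_lt _ hr0, ?_⟩
          have h4 : c % r j < r j := Nat.mod_lt _ hr0
          rw [Nat.mod_add_mod, ← Nat.add_mod_mod]
          have h5 : i + (r j - c % r j) + c % r j = i + r j := by omega
          rw [h5, Nat.add_mod_right, Nat.mod_eq_of_lt hi]
        obtain ⟨v', hv', hp'⟩ := hB.full v0 h3 b (by rw [h2]; exact hb)
        have h4 : nd v' = j := (hB.nb v' v0 hv').trans h2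
        have h5 : ¬ Fx v' := fun h => h3 ((hB.fxb v' v0 hv').1 h)
        refine mem_image.2 ⟨v', mem_filter.2 ⟨(hNFm v').2 ⟨h4, h5⟩, ?_⟩, hv'⟩
        rw [hlab]
        unfold lb
        rw [if_neg h5, hp', h4, hv', ← hc]
        exact hbc
      exact (card_le_card hsub).trans card_image_le
  have h2 : NF.card = r j * B.card := by
    rw [card_eq_sum_card_fiberwise (f := lab) (t := range (r j))]
    · rw [sum_congr rfl fun i hi => h1 i (mem_range.1 hi), sum_const, card_range, smul_eq_mul]
    · intro v hv
      have h3 := ((hNFm v).1 (mem_coe.1 hv)).1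
      rw [mem_coe, mem_range, ← h3]
      exact lb_lt hB hr ω v
  -- fixed vertices
  have hinj : Set.InjOn pos (F : Set V) := by
    intro v hv v' hv' h
    obtain ⟨a1, a2⟩ := (hFm v).1 (mem_coe.1 hv)
    obtain ⟨b1, b2⟩ := (hFm v').1 (mem_coe.1 hv')
    exact hB.inj v v' (hB.fx1 v v' a2 b2 (a1.trans b1.symm)) h
  have hdown : ∀ v ∈ F, ∀ i < pos v, i ∈ F.image pos := by
    intro v hv i hi
    obtain ⟨a1, a2⟩ := (hFm v).1 hv
    obtain ⟨v', h3, h4⟩ := hB.fxp v a2 i hi
    exact mem_image.2 ⟨v', (hFm v').2 ⟨(hB.nb v' v h3).trans a1, (hB.fxb v' v h3).2 a2⟩, h4⟩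
  have himg : F.image pos = range F.card := by
    apply eq_of_subset_of_card_le
    · intro x hx
      obtain ⟨v, hv, rfl⟩ := mem_image.1 hx
      have h3 : range (pos v + 1) ⊆ F.image pos := by
        intro i hi
        rw [mem_range] at hi
        rcases Nat.lt_or_ge i (pos v) with h | h
        · exact hdown v hv i h
        · have : i = pos v := by omega
          rw [this]
          exact mem_image_of_mem _ hv
      have h4 := card_le_card h3
      rw [card_range, card_image_of_injOn hinj] at h4
      rw [mem_range]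
      omega
    · rw [card_range, card_image_of_injOn hinj]
  have hs : F.card < r j := by
    rcases F.eq_empty_or_nonempty with h | ⟨v, hv⟩
    · rw [h, card_empty]
      exact (hr j).1
    · obtain ⟨a1, a2⟩ := (hFm v).1 hv
      obtain ⟨i0, hi0, h3⟩ := hB.fxs v a2
      by_contra hcon
      push Not at hcon
      rw [a1] at hi0
      have h4 : i0 ∈ F.image pos := by
        rw [himg, mem_range]
        omega
      obtain ⟨v', hv', h5⟩ := mem_image.1 h4
      obtain ⟨b1, b2⟩ := (hFm v').1 hv'
      exact h3 v' (hB.fx1 v' v b2 a2 (b1.trans a1.symm)) h5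
  have h3 : (F.filter (fun v => lab v = i)).card = if i < F.card then 1 else 0 := by
    have h4 : F.filter (fun v => lab v = i) = F.filter (fun v => pos v = i) := by
      apply filter_congr
      intro v hv
      have h5 : lab v = pos v := by
        rw [hlab]
        unfold lb
        rw [if_pos ((hFm v).1 hv).2]
      rw [h5]
    rw [h4]
    split_ifs with h
    · have h5 : i ∈ F.image pos := by
        rw [himg, mem_range]
        exact h
      obtain ⟨v, hv, h6⟩ := mem_image.1 h5
      rw [card_eq_one]
      refine ⟨v, ?_⟩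
      ext x
      rw [mem_filter, mem_singleton]
      constructor
      · rintro ⟨h7, h8⟩
        exact hinj (mem_coe.2 h7) (mem_coe.2 hv) (h8.trans h6.symm)
      · rintro rfl
        exact ⟨hv, h6⟩
    · rw [card_eq_zero, filter_eq_empty_iff]
      intro v hv h6
      apply h
      have h7 : i ∈ F.image pos := mem_image.2 ⟨v, hv, h6⟩
      rwa [himg, mem_range] at h7
  have h4 : (nodeS nd j).card = r j * B.card + F.card := by
    rw [← h2, add_comm]
    exact (card_filter_add_card_filter_not (s := nodeS nd j) (fun v => Fx v)).symm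
  have h5 : (clS nd lab j i).card = (NF.filter (fun v => lab v = i)).card +
      (F.filter (fun v => lab v = i)).card := by
    rw [← card_union_of_disjoint]
    · congr 1
      ext v
      have e1 := hNFm v
      have e2 := hFm v
      simp only [mem_clS, mem_union, mem_filter] at e1 e2 ⊢
      rw [e1, e2]
      tauto
    · rw [Finset.disjoint_left]
      intro v hv hv'
      exact ((hNFm v).1 (mem_filter.1 hv).1).2 ((hFm v).1 (mem_filter.1 hv').1).2
  rw [h5, h1 i hi, h3, h4, div_aux hs hi]

end siz

end Pool.Agent.Work.MP_db9399_da.helper45
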